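import Pool.Agent.Helper6.W.Defs
import Pool.Agent.Helper6.FixK.Word

/-! Traces of alternating products as averages over alternating words. -/

set_option linter.unusedSectionVars false

namespace Pool.Agent.Helper6.W

open Matrix Equiv Pool.Agent.Helper15.An Pool.Agent.Helper6.FixK
open scoped ComplexOrder

variable {n D : ℕ}

theorem pos_congr (y : Perm (Fin n)) {Z Z' : ℕ → Perm (Fin n)} {T : ℕ}
    (h : ∀ t < T, Z t = Z' t) : pos y Z T = pos y Z' T := by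
  induction T with
  | zero => rfl
  | succ T ih => rw [pos, pos, h T (by omega), ih fun t ht => h t (by omega)]

theorem pos_snoc (y : Perm (Fin n)) {T : ℕ} (Z : Fin T → Perm (Fin n)) (g : Perm (Fin n)) :
    pos y (ext (Fin.snoc Z g : Fin (T + 1) → Perm (Fin n))) (T + 1) =
      g * cr y T * pos y (ext Z) T := by
  have h1 : ext (Fin.snoc Z g : Fin (T + 1) → Perm (Fin n)) T = g := by
    unfold ext
    rw [dif_pos (by omega)]
    have h2 : (⟨T, by omega⟩ : Fin (T + 1)) = Fin.last T := rfl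
    rw [h2, Fin.snoc_last]
  rw [pos, h1]
  congr 1
  apply pos_congr
  intro t ht
  unfold ext
  rw [dif_pos (by omega), dif_pos ht]
  have h2 : (⟨t, by omega⟩ : Fin (T + 1)) = Fin.castSucc ⟨t, ht⟩ := rfl
  rw [h2, Fin.snoc_castSucc]

/-- summing out the last letter -/
theorem sum_snoc {M : Type} [AddCommMonoid M] {T : ℕ}
    (E : (Fin (T + 1) → Perm (Fin n)) → M) :
    ∑ Z, E Z = ∑ Z : Fin T → Perm (Fin n), ∑ g : Perm (Fin n), E (Fin.snoc Z g) := by
  rw [← (Fin.snocEquiv (fun _ : Fin (T + 1) => Perm (Fin n))).sum_comp, Fintype.sum_prod_type,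
    Finset.sum_comm]
  rfl

theorem prod_snoc (κ : Perm (Fin n) → ℝ) {T : ℕ} (Z : Fin T → Perm (Fin n))
    (g : Perm (Fin n)) : ∏ t, κ ((Fin.snoc Z g : Fin (T + 1) → Perm (Fin n)) t) =
      (∏ t, κ (Z t)) * κ g := by
  rw [Fin.prod_univ_castSucc]
  simp

theorem sum_weights {κ : Perm (Fin n) → ℝ} (h1 : ∑ g, κ g = 1) (T : ℕ) :
    ∑ Z : Fin T → Perm (Fin n), ∏ t, κ (Z t) = 1 := by
  induction T with
  | zero => simp
  | succ T ih =>
    rw [sum_snoc]
    simp_rw [prod_snoc, ← Finset.mul_sum, h1, mul_one]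
    exact ih

/-- one more letter -/
theorem word_succ (ρ : Perm (Fin n) →* Matrix (Fin D) (Fin D) ℂ) (κ : Perm (Fin n) → ℝ)
    (y : Perm (Fin n)) (T : ℕ) :
    ∑ Z : Fin (T + 1) → Perm (Fin n), (∏ t, κ (Z t)) • ρ (pos y (ext Z) (T + 1)) =
      wop ρ κ * ρ (cr y T) *
        ∑ Z : Fin T → Perm (Fin n), (∏ t, κ (Z t)) • ρ (pos y (ext Z) T) := by
  rw [sum_snoc, Finset.mul_sum]
  refine Finset.sum_congr rfl fun Z _ => ?_
  unfold wop
  rw [Finset.sum_mul, Finset.sum_mul]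
  refine Finset.sum_congr rfl fun g _ => ?_
  rw [prod_snoc, pos_snoc, map_mul, map_mul, Matrix.mul_smul, Matrix.smul_mul, Matrix.smul_mul,
    smul_smul]

theorem word_pow (ρ : Perm (Fin n) →* Matrix (Fin D) (Fin D) ℂ) (hu : ∀ g, (ρ g)ᴴ * ρ g = 1)
    (κ : Perm (Fin n) → ℝ) (y : Perm (Fin n)) (q : ℕ) :
    ∑ Z : Fin (2 * q) → Perm (Fin n), (∏ t, κ (Z t)) • ρ (pos y (ext Z) (2 * q)) =
      (wop ρ κ * ((ρ y)ᴴ * wop ρ κ * ρ y)) ^ q := by
  induction q with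
  | zero =>
    simp only [Nat.mul_zero, pow_zero, pos, map_one]
    rw [← Finset.sum_smul]
    simp
  | succ q ih =>
    have h1 : 2 * (q + 1) = 2 * q + 1 + 1 := by ring
    rw [h1, word_succ, word_succ, ih, pow_succ']
    have h2 : cr y (2 * q + 1) = y⁻¹ := by
      unfold cr
      rw [if_neg]
      rw [Nat.not_even_iff_odd]
      exact ⟨q, rfl⟩
    have h3 : cr y (2 * q) = y := by
      unfold cr
      rw [if_pos (even_two_mul q)]
    rw [h2, h3, ← rho_conj ρ hu]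
    simp only [Matrix.mul_assoc]

/-- the trace of the alternating product -/
theorem trace_word_le (ρ : Perm (Fin n) →* Matrix (Fin D) (Fin D) ℂ)
    (hu : ∀ g, (ρ g)ᴴ * ρ g = 1) {κ : Perm (Fin n) → ℝ} (h0 : ∀ g, 0 ≤ κ g)
    (h1 : ∑ g, κ g = 1) (y : Perm (Fin n)) (q F : ℕ) (ψ : ℝ) (hψ0 : 0 ≤ ψ)
    (hψ : ∀ g : Perm (Fin n), fixc g < F → ‖trace (ρ g)‖ ≤ D * ψ) :
    (trace ((wop ρ κ * ((ρ y)ᴴ * wop ρ κ * ρ y)) ^ q)).re ≤
      D * (∑ Z : Fin (2 * q) → Perm (Fin n), (∏ t, κ (Z t)) *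
        (if F ≤ fixc (pos y (ext Z) (2 * q)) then (1 : ℝ) else 0)) + D * ψ := by
  rw [← word_pow ρ hu, trace_sum, Complex.re_sum]
  have hD : (0 : ℝ) ≤ D := Nat.cast_nonneg _
  have hterm : ∀ Z : Fin (2 * q) → Perm (Fin n),
      (trace ((∏ t, κ (Z t)) • ρ (pos y (ext Z) (2 * q)))).re ≤
        D * ((∏ t, κ (Z t)) * (if F ≤ fixc (pos y (ext Z) (2 * q)) then (1 : ℝ) else 0)) +
          (∏ t, κ (Z t)) * (D * ψ) := by
    intro Z
    have hp : 0 ≤ ∏ t, κ (Z t) := Finset.prod_nonneg fun t _ => h0 _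
    rw [trace_smul, Complex.real_smul, Complex.re_ofReal_mul]
    have hre := Complex.re_le_norm (trace (ρ (pos y (ext Z) (2 * q))))
    split_ifs with h
    · have h2 := norm_trace_le hu (pos y (ext Z) (2 * q))
      have h3 : (∏ t, κ (Z t)) * (trace (ρ (pos y (ext Z) (2 * q)))).re ≤
          (∏ t, κ (Z t)) * D := mul_le_mul_of_nonneg_left (hre.trans h2) hp
      have h4 : 0 ≤ (∏ t, κ (Z t)) * (D * ψ) := by positivity
      linarith
    · have h2 := hψ _ (not_le.1 h)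
      have h3 : (∏ t, κ (Z t)) * (trace (ρ (pos y (ext Z) (2 * q)))).re ≤
          (∏ t, κ (Z t)) * (D * ψ) := mul_le_mul_of_nonneg_left (hre.trans h2) hp
      linarith
  refine (Finset.sum_le_sum fun Z _ => hterm Z).trans ?_
  rw [Finset.sum_add_distrib, ← Finset.mul_sum, ← Finset.sum_mul, sum_weights h1, one_mul]

/-- average over the even permutations `y` -/
theorem sum_trace_le (hn : 2 ≤ n) (ρ : Perm (Fin n) →* Matrix (Fin D) (Fin D) ℂ)
    (hu : ∀ g, (ρ g)ᴴ * ρ g = 1) {κ : Perm (Fin n) → ℝ} (h0 : ∀ g, 0 ≤ κ g)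
    (h1 : ∑ g, κ g = 1) (q F : ℕ) (ψ : ℝ) (hψ0 : 0 ≤ ψ)
    (hψ : ∀ g : Perm (Fin n), fixc g < F → ‖trace (ρ g)‖ ≤ D * ψ) (S : ℝ)
    (hS : ∑ y : Perm (Fin n), ∑ Z : Fin (2 * q) → Perm (Fin n), (∏ t, κ (Z t)) *
        (if F ≤ fixc (pos y (ext Z) (2 * q)) then (1 : ℝ) else 0) ≤ (n.factorial : ℝ) * S) :
    ∑ y : Alt n, (trace ((wop ρ κ * ((ρ (y : Perm (Fin n)))ᴴ * wop ρ κ *
      ρ (y : Perm (Fin n)))) ^ q)).re ≤ Fintype.card (Alt n) * (D * (2 * S + ψ)) := by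
  have hD : (0 : ℝ) ≤ D := Nat.cast_nonneg _
  refine (Finset.sum_le_sum fun (y : Alt n) _ => trace_word_le ρ hu h0 h1 (y : Perm (Fin n)) q F
    ψ hψ0 hψ).trans ?_
  rw [Finset.sum_add_distrib, ← Finset.mul_sum, Finset.sum_const, Finset.card_univ, nsmul_eq_mul]
  have h2 : ∑ y : Alt n, ∑ Z : Fin (2 * q) → Perm (Fin n), (∏ t, κ (Z t)) *
        (if F ≤ fixc (pos (y : Perm (Fin n)) (ext Z) (2 * q)) then (1 : ℝ) else 0) ≤
      ∑ y : Perm (Fin n), ∑ Z : Fin (2 * q) → Perm (Fin n), (∏ t, κ (Z t)) *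
        (if F ≤ fixc (pos y (ext Z) (2 * q)) then (1 : ℝ) else 0) := by
    classical
    have h3 := Finset.sum_subtype (Finset.univ.filter (fun g : Perm (Fin n) => g ∈ Alt n))
      (p := fun g => g ∈ Alt n) (F := inferInstanceAs (Fintype (Alt n))) (by simp) (fun y => ∑ Z : Fin (2 * q) → Perm (Fin n),
        (∏ t, κ (Z t)) * (if F ≤ fixc (pos y (ext Z) (2 * q)) then (1 : ℝ) else 0))
    refine (le_of_eq h3.symm).trans ?_
    refine Finset.sum_le_sum_of_subset_of_nonneg (Finset.filter_subset _ _) fun y _ _ => ?_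
    refine Finset.sum_nonneg fun Z _ => mul_nonneg (Finset.prod_nonneg fun t _ => h0 _) ?_
    split_ifs <;> norm_num
  have hG : (n.factorial : ℝ) = 2 * Fintype.card (Alt n) := by
    have := card_Alt hn
    rw [Fintype.card_perm, Fintype.card_fin] at this
    exact_mod_cast this
  rw [hG] at hS
  calc _ ≤ (D : ℝ) * (2 * Fintype.card (Alt n) * S) + Fintype.card (Alt n) * (D * ψ) := by
        gcongr
        exact h2.trans hS
    _ = _ := by ring

end Pool.Agent.Helper6.W
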