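import Pool.Agent.Helper6.W.Ingredients
import Pool.Agent.Helper6.W.Trace

/-! The law of the lazy walk is nearly uniform on tuples. -/

set_option linter.unusedSectionVars false

namespace Pool.Agent.Helper6.W

open Matrix Equiv Pool.Agent.Helper15.An Pool.Agent.Helper6.FixK
open scoped ComplexOrder

section lin
variable {d : Type} [Fintype d] [DecidableEq d]

/-- spectral form of a power of the lazy operator -/
theorem lazy_pow_spec {T : Matrix d d ℂ} (hT : T.IsHermitian) (l : ℕ) :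
    ((1 / 2 : ℝ) • ((1 : Matrix d d ℂ) + T)) ^ l = (hT.eigenvectorUnitary : Matrix d d ℂ) *
      diagonal (fun i => ((((1 + hT.eigenvalues i) / 2) ^ l : ℝ) : ℂ)) *
      (hT.eigenvectorUnitary : Matrix d d ℂ)ᴴ := by
  have h1 : (1 / 2 : ℝ) • ((1 : Matrix d d ℂ) + T) = (1 / 2 : ℝ) • (1 : Matrix d d ℂ) +
      (1 / 2 : ℝ) • T := by rw [smul_add]
  rw [h1, affine_spec hT, conj_diag_pow]
  congr 3
  ext i
  push_cast
  congr 1
  ring

theorem lazy_pow_posSemidef {T : Matrix d d ℂ} (hT : T.IsHermitian)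
    (h0 : (T - (-1 : ℝ) • (1 : Matrix d d ℂ)).PosSemidef) (l : ℕ) :
    (((1 / 2 : ℝ) • ((1 : Matrix d d ℂ) + T)) ^ l).PosSemidef := by
  rw [lazy_pow_spec hT]
  refine PosSemidef.mul_mul_conjTranspose_same (PosSemidef.diagonal ?_) _
  intro i
  simp only [Pi.zero_apply]
  have h3 := le_eigenvalues_of hT _ h0 i
  have h4 : (0 : ℝ) ≤ ((1 + hT.eigenvalues i) / 2) ^ l := pow_nonneg (by linarith) _
  exact_mod_cast h4

theorem lazy_pow_le {T : Matrix d d ℂ} (hT : T.IsHermitian) (ε : ℝ)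
    (h0 : (T - (-1 : ℝ) • (1 : Matrix d d ℂ)).PosSemidef)
    (h1 : ((1 - ε) • (1 : Matrix d d ℂ) - T).PosSemidef) (l : ℕ) :
    (((1 - ε / 2) ^ l) • (1 : Matrix d d ℂ) -
      ((1 / 2 : ℝ) • ((1 : Matrix d d ℂ) + T)) ^ l).PosSemidef := by
  have h2 : ((1 - ε / 2) ^ l) • (1 : Matrix d d ℂ) = (hT.eigenvectorUnitary : Matrix d d ℂ) *
      diagonal (fun _ => (((1 - ε / 2) ^ l : ℝ) : ℂ)) *
      (hT.eigenvectorUnitary : Matrix d d ℂ)ᴴ := by
    have : (diagonal (fun _ => (((1 - ε / 2) ^ l : ℝ) : ℂ)) : Matrix d d ℂ) =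
        ((1 - ε / 2) ^ l) • (1 : Matrix d d ℂ) := by
      ext i j
      by_cases hij : i = j
      · subst hij; simp
      · simp [hij]
    rw [this, Matrix.mul_smul, Matrix.smul_mul, Matrix.mul_one, unitary_mul_conj]
  rw [h2, lazy_pow_spec hT, ← Matrix.sub_mul, ← Matrix.mul_sub, diagonal_sub]
  refine PosSemidef.mul_mul_conjTranspose_same (PosSemidef.diagonal ?_) _
  intro i
  simp only [Pi.zero_apply]
  have h3 := le_eigenvalues_of hT _ h0 i
  have h4 := eigenvalues_le_of hT _ h1 i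
  have h5 : ((1 + hT.eigenvalues i) / 2) ^ l ≤ (1 - ε / 2) ^ l :=
    pow_le_pow_left₀ (by linarith) (by linarith) l
  have h6 : (0 : ℝ) ≤ (1 - ε / 2) ^ l - ((1 + hT.eigenvalues i) / 2) ^ l := by linarith
  exact_mod_cast h6

end lin

variable {n : ℕ}

theorem descFactorial_mono {j p : ℕ} (hjp : j ≤ p) (hp : p ≤ n) :
    n.descFactorial j ≤ n.descFactorial p := by
  induction p, hjp using Nat.le_induction with
  | base => exact le_refl _
  | succ p h ih =>
    rw [Nat.descFactorial_succ]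
    have := ih (by omega)
    have h2 : 1 ≤ n - p := by omega
    calc n.descFactorial j ≤ n.descFactorial p := this
      _ ≤ (n - p) * n.descFactorial p := Nat.le_mul_of_pos_left _ h2

/-- the law of the lazy walk -/
theorem exists_wise (F : PW (Perm (Fin n))) {μ : Perm (Fin n) → ℝ}
    (hμ : IsSP (Alt n : Set (Perm (Fin n))) μ) (p : ℕ) (hp : p + 2 ≤ n) (ε : ℝ)
    (hε1 : ε ≤ 1) (hgood : Good F μ p ε) (l : ℕ)
    (hl : (1 - ε / 2) ^ (2 * l) ≤ 1 / (n.descFactorial p : ℝ)) :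
    ∃ κ : Perm (Fin n) → ℝ, Wise κ p ∧
      ∀ (D : ℕ) (ρ : Perm (Fin n) →* Matrix (Fin D) (Fin D) ℂ),
        ((1 / 2 : ℝ) • ((1 : Matrix (Fin D) (Fin D) ℂ) + wop ρ μ)) ^ (2 * l) = wop ρ κ := by
  obtain ⟨κ, h0, h1, h2, h3⟩ := exists_law (Alt n) hμ (2 * l)
  refine ⟨κ, ⟨h0, h1, fun j hj a b => ?_⟩, h3⟩
  have hδ : 0 ≤ (1 - ε / 2) ^ (2 * l) := pow_nonneg (by linarith) _
  have h4 := wise_of_levels F κ h1 h2 p hp ((1 - ε / 2) ^ (2 * l)) hδ (fun i hi hf => by
    have hT := wop_isHermitian (F.ρ i) (F.irr i).unit hμ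
    have hT2 := wop_add_one (F.ρ i) (F.irr i).unit hμ
    rw [← h3]
    exact ⟨lazy_pow_posSemidef hT hT2 _, lazy_pow_le hT ε hT2 (hgood i hi hf) _⟩) j hj a b
  refine h4.trans ?_
  have h5 : (n.descFactorial j : ℝ) ≤ n.descFactorial p := by
    exact_mod_cast descFactorial_mono hj (by omega)
  have h6 : (0 : ℝ) < n.descFactorial j := by
    have : 0 < n.descFactorial j := Nat.descFactorial_pos.2 (by omega)
    exact_mod_cast this
  have h7 : 1 / (n.descFactorial p : ℝ) ≤ 1 / n.descFactorial j :=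
    one_div_le_one_div_of_le h6 h5
  calc 1 / (n.descFactorial j : ℝ) + (1 - ε / 2) ^ (2 * l) ≤
      1 / (n.descFactorial j : ℝ) + 1 / n.descFactorial j := by linarith
    _ = 2 / n.descFactorial j := by ring

end Pool.Agent.Helper6.W
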