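import Mathlib

/-! The logarithm tends to infinity along the natural numbers. -/

namespace Pool.Agent.Helper6.W

open Filter Topology

theorem tendsto_log_nat : Tendsto (fun n : ℕ => Real.log n) atTop atTop :=
  Real.tendsto_log_atTop.comp tendsto_natCast_atTop_atTop

end Pool.Agent.Helper6.W
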