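import Pool.Agent.Helper6.W.Step
import Pool.Agent.Helper6.H.Final
import Pool.Agent.Helper6.W.LogNat

/-! Iteration of the stage: all exponents below one. -/

set_option linter.unusedSectionVars false

namespace Pool.Agent.Helper6.W

open Matrix Equiv Filter Topology Pool.Agent.Helper15.An Pool.Agent.Helper6.FixK
open scoped ComplexOrder

/-- a fixed number of random elements is good on the levels up to `n ^ α` -/
def Cl (α : ℝ) : Prop := ∃ K : ℕ, 0 < K ∧ ∃ ε : ℝ, 0 < ε ∧ ε ≤ 1 ∧ ∃ C : ℝ, 0 ≤ C ∧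
  ∀ᶠ n : ℕ in atTop, ∀ F : PW (Perm (Fin n)),
    (Nat.card {z : Fin K → Alt n // ¬ Good F (tupW z) (lv n α) ε} : ℝ) ≤
      (Fintype.card (Alt n) : ℝ) ^ K * (C / n)

theorem lv_eq {n : ℕ} (hn : 0 < n) (α : ℝ) : lv n α = ⌊(n : ℝ) ^ α⌋₊ := by
  unfold lv
  rw [Real.rpow_def_of_pos (by exact_mod_cast hn), mul_comm]

theorem lv_mono {n : ℕ} (hn : 0 < n) {α β : ℝ} (h : α ≤ β) : lv n α ≤ lv n β := by
  unfold lv
  apply Nat.floor_le_floor
  apply Real.exp_le_exp.2
  refine mul_le_mul_of_nonneg_right h (Real.log_nonneg ?_)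
  exact_mod_cast hn

theorem Cl.mono {α β : ℝ} (h : α ≤ β) (hβ : Cl β) : Cl α := by
  obtain ⟨K, hK, ε, hε, hε1, C, hC, hev⟩ := hβ
  refine ⟨K, hK, ε, hε, hε1, C, hC, ?_⟩
  filter_upwards [hev, eventually_gt_atTop 0] with n hn hn0 F
  refine le_trans ?_ (hn F)
  have h1 : Nat.card {z : Fin K → Alt n // ¬ Good F (tupW z) (lv n α) ε} ≤
      Nat.card {z : Fin K → Alt n // ¬ Good F (tupW z) (lv n β) ε} :=
    Nat.card_le_card_of_injective (fun z => ⟨z.1, fun hz => z.2 (hz.mono (lv_mono hn0 h))⟩) (by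
      intro x y hxy
      have := congrArg Subtype.val hxy
      exact Subtype.ext this)
  exact_mod_cast h1

theorem cl_base : Cl (2 / 5) := by
  obtain ⟨K, hK⟩ := Pool.Agent.Helper6.H.main_good2 (2 / 5) (by norm_num) (by norm_num)
  obtain ⟨C, hC, hev⟩ := hK (K + 1) (by omega)
  refine ⟨K + 1, by omega, 1 / 2, by norm_num, by norm_num, C, hC, ?_⟩
  filter_upwards [hev, eventually_gt_atTop 0] with n hn hn0 F
  rw [lv_eq hn0]
  exact hn F

theorem ev_exp {b : ℝ} (hb : 0 < b) (C : ℝ) : ∀ᶠ L : ℝ in atTop, C ≤ Real.exp (b * L) := by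
  filter_upwards [eventually_ge_atTop (C / b)] with L hL
  have h1 : C ≤ b * L := by
    rw [div_le_iff₀ hb] at hL
    linarith
  have := Real.add_one_le_exp (b * L)
  linarith

theorem ev_bigW {α δ : ℝ} (hα : 0 < α) (hδ : 0 < δ) :
    ∀ᶠ n : ℕ in atTop, BigW α δ (Real.log n) := by
  have h : ∀ᶠ L : ℝ in atTop, BigW α δ L := by
    filter_upwards [eventually_ge_atTop 1, ev_exp (show 0 < δ / 32 by positivity) 4096,
      ev_exp hα (256 / δ + 2)] with L h0 h1 h2
    exact ⟨h0, h1, h2⟩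
  exact tendsto_log_nat.eventually h

theorem cl_step {α α' δ : ℝ} (ex : Exps α α' δ) (h : Cl α) : Cl α' := by
  obtain ⟨K, hK, ε, hε, hε1, C, hC, hev⟩ := h
  have hδ := ex.hδ
  set B : ℕ := ⌈32 / δ⌉₊ + 1 with hB
  set m : ℕ := ⌈128 / δ⌉₊ + 1 with hm
  have hB1 : 32 ≤ δ * B := by
    have h1 : 32 / δ ≤ (⌈32 / δ⌉₊ : ℝ) := Nat.le_ceil _
    rw [div_le_iff₀ hδ] at h1
    rw [hB]
    push_cast
    linarith
  have hm1 : 128 ≤ δ * m := by
    have h1 : 128 / δ ≤ (⌈128 / δ⌉₊ : ℝ) := Nat.le_ceil _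
    rw [div_le_iff₀ hδ] at h1
    rw [hm]
    push_cast
    linarith
  have hB0 : 0 < B := by omega
  have hm0 : 0 < m := by omega
  have hBr : (1 : ℝ) ≤ B := by exact_mod_cast hB0
  have hKr : (1 : ℝ) ≤ ((K + B + m : ℕ) : ℝ) := by
    have : 1 ≤ K + B + m := by omega
    exact_mod_cast this
  refine ⟨K + B + m, by omega,
    min (ε / 4) (ε * δ / 256 / (100 * B) / 100) / ((K + B + m : ℕ) : ℝ), ?_, ?_, C + 4,
    by linarith, ?_⟩
  · have : 0 < min (ε / 4) (ε * δ / 256 / (100 * B) / 100) := lt_min (by positivity)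
      (by positivity)
    positivity
  · rw [div_le_one (by linarith)]
    have := min_le_left (ε / 4) (ε * δ / 256 / (100 * B) / 100)
    linarith
  filter_upwards [hev, eventually_ge_atTop 2, ev_bigW ex.hα hδ] with n hn hn2 hbig F
  have h1 := stage_step ex hε hε1 hK hB0 hm0 hB1 hm1 hn2 hbig F (C / n) (hn F)
  refine h1.trans (le_of_eq ?_)
  congr 1
  ring

/-- the exponents of the iteration -/
theorem cl_iter (j : ℕ) : Cl (1 - (3 / 5) * (3 / 4) ^ j) := by
  induction j with
  | zero =>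
    have := cl_base
    norm_num
    norm_num at this
    exact this
  | succ j ih =>
    have h0 : (0 : ℝ) < (3 / 4) ^ j := by positivity
    have h1 : ((3 : ℝ) / 4) ^ j ≤ 1 := pow_le_one₀ (by norm_num) (by norm_num)
    refine cl_step (δ := (3 / 4) ^ j / 100) ?_ ih
    refine ⟨by linarith, ?_, by positivity, ?_, ?_, ?_⟩
    · rw [pow_succ]; linarith
    · rw [pow_succ]; linarith
    · rw [pow_succ]; linarith
    · rw [pow_succ]; linarith

theorem cl_all {α : ℝ} (hα : α < 1) : Cl α := by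
  obtain ⟨j, hj⟩ := exists_pow_lt_of_lt_one (show 0 < 1 - α by linarith)
    (show (3 / 4 : ℝ) < 1 by norm_num)
  refine (cl_iter j).mono ?_
  have h0 : (0 : ℝ) < (3 / 4) ^ j := by positivity
  linarith

/-- one bad block -/
theorem some_block {Y : Type} [Fintype Y] [Nonempty Y] (P : Y → Prop) (c : ℝ)
    (hc : (Nat.card {y : Y // P y} : ℝ) ≤ c * Fintype.card Y) (B : ℕ) :
    (Nat.card {x : Fin B → Y // ∃ b, P (x b)} : ℝ) ≤ B * c * (Fintype.card Y : ℝ) ^ B := by
  classical
  have h1 : Nat.card {x : Fin B → Y // ∃ b, P (x b)} ≤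
      ∑ b : Fin B, Nat.card {x : Fin B → Y // P (x b)} := by
    simp only [Nat.card_eq_fintype_card, Fintype.card_subtype]
    have h2 : (Finset.univ.filter fun x : Fin B → Y => ∃ b, P (x b)) ⊆
        Finset.univ.biUnion fun b => Finset.univ.filter fun x : Fin B → Y => P (x b) := by
      intro x hx
      obtain ⟨b, hb⟩ := (Finset.mem_filter.1 hx).2
      exact Finset.mem_biUnion.2 ⟨b, Finset.mem_univ _, Finset.mem_filter.2
        ⟨Finset.mem_univ _, hb⟩⟩
    exact (Finset.card_le_card h2).trans Finset.card_biUnion_le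
  have h2 : ∀ b : Fin B, (Nat.card {x : Fin B → Y // P (x b)} : ℝ) ≤
      c * (Fintype.card Y : ℝ) ^ B := fun b =>
    fresh b (fun x => P (x b)) c fun x => by simpa using hc
  calc (Nat.card {x : Fin B → Y // ∃ b, P (x b)} : ℝ) ≤
      ((∑ b : Fin B, Nat.card {x : Fin B → Y // P (x b)} : ℕ) : ℝ) := by exact_mod_cast h1
    _ = ∑ b : Fin B, (Nat.card {x : Fin B → Y // P (x b)} : ℝ) := by push_cast; rfl
    _ ≤ ∑ _b : Fin B, c * (Fintype.card Y : ℝ) ^ B := Finset.sum_le_sum fun b _ => h2 b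
    _ = B * c * (Fintype.card Y : ℝ) ^ B := by
        rw [Finset.sum_const, Finset.card_univ, Fintype.card_fin, nsmul_eq_mul]; ring

/-- all large `k` -/
theorem main_good {α : ℝ} (hα : α < 1) : ∃ ε : ℝ, 0 < ε ∧ ε ≤ 1 ∧ ∃ K : ℕ, ∀ k : ℕ, K ≤ k →
    ∃ C : ℝ, 0 ≤ C ∧ ∀ᶠ n : ℕ in atTop, ∀ F : PW (Perm (Fin n)),
      (Nat.card {z : Fin k → Alt n // ¬ Good F (tupW z) (lv n α) ε} : ℝ) ≤
        (Fintype.card (Alt n) : ℝ) ^ k * (C / n) := by
  obtain ⟨K, hK, ε, hε, hε1, C, hC, hev⟩ := cl_all hα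
  refine ⟨ε / 2, by linarith, by linarith, K, fun k hk => ?_⟩
  set B := k / K with hB
  set t := k % K with ht
  have hkeq : k = B * K + t := by
    rw [hB, ht, mul_comm]
    exact (Nat.div_add_mod k K).symm
  have htk : t < K := Nat.mod_lt _ hK
  have hB0 : 0 < B := Nat.div_pos hk hK
  refine ⟨B * C, by positivity, ?_⟩
  filter_upwards [hev] with n hn F
  have hη : ε / 2 * ((B * K + t : ℕ) : ℝ) ≤ B * K * (1 - (1 - ε)) := by
    have h1 : (t : ℝ) ≤ B * K := by
      have h2 : t ≤ B * K := by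
        have : 1 * K ≤ B * K := Nat.mul_le_mul_right K hB0
        omega
      exact_mod_cast h2
    push_cast
    nlinarith
  have h1 := good_count F hB0 hK (lv n α) (1 - ε) (ε / 2) hη (t := t)
  rw [← hkeq] at h1
  refine h1.trans ?_
  have h2 : (Nat.card {x : Fin B → Fin K → Alt n // ¬ BGood F (lv n α) (1 - ε) x} : ℝ) ≤
      B * (C / n) * (Fintype.card (Fin K → Alt n) : ℝ) ^ B := by
    have h3 := some_block (Y := Fin K → Alt n) (fun z => ¬ Good F (tupW z) (lv n α) ε) (C / n)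
      (by
        rw [Fintype.card_fun, Fintype.card_fin]
        push_cast
        rw [mul_comm]
        exact hn F) B
    refine le_trans ?_ h3
    have h4 : Nat.card {x : Fin B → Fin K → Alt n // ¬ BGood F (lv n α) (1 - ε) x} ≤
        Nat.card {x : Fin B → Fin K → Alt n // ∃ b, ¬ Good F (tupW (x b)) (lv n α) ε} := by
      refine Nat.card_le_card_of_injective (fun x => ⟨x.1, ?_⟩) (by
        intro x y hxy
        have := congrArg Subtype.val hxy
        exact Subtype.ext this)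
      by_contra hcon
      push Not at hcon
      apply x.2
      intro i hi hf
      have h5 : ∀ b : Fin B, ((1 - ε) • (1 : Matrix (Fin (F.D i)) (Fin (F.D i)) ℂ) -
          avgRe fun l => F.ρ i (x.1 b l : Perm (Fin n))).PosSemidef := by
        intro b
        have h6 := hcon b i hi hf
        rwa [wop_tupW (F.ρ i) (F.irr i).unit] at h6
      have h7 := posSemidef_sum Finset.univ fun b (_ : b ∈ Finset.univ) => h5 b
      convert h7 using 1
      rw [Finset.sum_sub_distrib, Finset.sum_const, Finset.card_univ, Fintype.card_fin,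
        ← Nat.cast_smul_eq_nsmul ℝ, smul_smul]
    exact_mod_cast h4
  have hc : (Fintype.card (Fin K → Alt n) : ℝ) = (Fintype.card (Alt n) : ℝ) ^ K := by
    rw [Fintype.card_fun, Fintype.card_fin]; push_cast; rfl
  rw [hc] at h2
  calc _ ≤ B * (C / n) * ((Fintype.card (Alt n) : ℝ) ^ K) ^ B *
        (Fintype.card (Alt n) : ℝ) ^ t := by gcongr
    _ = ((Fintype.card (Alt n) : ℝ) ^ (B * K + t)) * (B * C / n) := by
        rw [pow_add, mul_comm B K, pow_mul]; ring
    _ = _ := by rw [← hkeq]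

/-- the gap on tuples -/
theorem main_tuples {α : ℝ} (hα : α < 1) : ∃ ε : ℝ, 0 < ε ∧ ∃ K : ℕ, ∀ k : ℕ, K ≤ k →
    Tendsto (fun n : ℕ => (Nat.card {x : Fin k → Alt n // ∀ r : ℕ, (r : ℝ) ≤ (n : ℝ) ^ α →
      GroupGap x r ε ∧ TupleGap x r ε} : ℝ) / Nat.card (Fin k → Alt n)) atTop (𝓝 1) := by
  set α' : ℝ := max α 0 with hα'
  have hα'0 : 0 ≤ α' := le_max_right _ _
  have hα'1 : α' < 1 := max_lt hα (by norm_num)
  obtain ⟨ε, hε, hε1, K, hK⟩ := main_good hα'1
  refine ⟨ε, hε, K, fun k hk => ?_⟩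
  obtain ⟨C, hC, hev⟩ := hK k hk
  have hlim : Tendsto (fun n : ℕ => 1 - C / n) atTop (𝓝 1) := by
    have h5 : Tendsto (fun n : ℕ => C / (n : ℝ)) atTop (𝓝 0) :=
      tendsto_const_div_atTop_nhds_zero_nat _
    simpa using h5.const_sub 1
  have hsm : ∀ᶠ n : ℕ in atTop, (4 : ℝ) ≤ Real.exp ((1 - α') * Real.log n) :=
    tendsto_log_nat.eventually (ev_exp (by linarith) 4)
  refine tendsto_of_tendsto_of_tendsto_of_le_of_le' hlim tendsto_const_nhds ?_ ?_
  · filter_upwards [hev, hsm, eventually_ge_atTop 8] with n hbad hsm hn8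
    obtain ⟨F⟩ := exists_pw (Equiv.Perm (Fin n))
    have hbad := hbad F
    have hn0 : (0 : ℝ) < n := by
      have : 0 < n := by omega
      exact_mod_cast this
    have hn1 : (1 : ℝ) ≤ n := by
      have : 1 ≤ n := by omega
      exact_mod_cast this
    have hexp : (n : ℝ) ^ α' = Real.exp (α' * Real.log n) := by
      rw [Real.rpow_def_of_pos hn0, mul_comm]
    -- good tuples have gaps
    have hgap : ∀ z : Fin k → Alt n, Good F (tupW z) (lv n α') ε → ∀ r : ℕ,
        (r : ℝ) ≤ (n : ℝ) ^ α → GroupGap z r ε ∧ TupleGap z r ε := by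
      intro z hz r hr
      have hr' : (r : ℝ) ≤ (n : ℝ) ^ α' :=
        hr.trans (Real.rpow_le_rpow_of_exponent_le hn1 (le_max_left _ _))
      have hrp : r ≤ lv n α' := by
        rw [lv_eq (by omega)]
        exact Nat.le_floor hr'
      have h2 : GroupGap z r ε := (groupGap_of_good F z (lv n α') ε hz).mono hrp
      refine ⟨h2, tupleGap_of_groupGap z ?_ h2⟩
      -- r + 2 ≤ n
      have h3 : (r : ℝ) * 4 ≤ n := by
        calc (r : ℝ) * 4 ≤ Real.exp (α' * Real.log n) * Real.exp ((1 - α') * Real.log n) := by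
              rw [hexp] at hr'
              gcongr
          _ = Real.exp (1 * Real.log n) := by rw [← Real.exp_add]; congr 1; ring
          _ = n := by rw [one_mul, Real.exp_log hn0]
      have h4 : r * 4 ≤ n := by exact_mod_cast h3
      omega
    have hcards : (Nat.card (Fin k → Alt n) : ℝ) = (Fintype.card (Alt n) : ℝ) ^ k := by
      rw [Nat.card_eq_fintype_card, Fintype.card_fun, Fintype.card_fin]; push_cast; rfl
    have hN : (0 : ℝ) < (Fintype.card (Alt n) : ℝ) ^ k := by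
      have : (0 : ℝ) < Fintype.card (Alt n) := card_pos' (Alt n)
      positivity
    rw [hcards, le_div_iff₀ hN]
    classical
    have hsplit : (Nat.card (Fin k → Alt n) : ℝ) ≤
        (Nat.card {x : Fin k → Alt n // ∀ r : ℕ, (r : ℝ) ≤ (n : ℝ) ^ α →
          GroupGap x r ε ∧ TupleGap x r ε} : ℝ) +
        Nat.card {z : Fin k → Alt n // ¬ Good F (tupW z) (lv n α') ε} := by
      have h1 : Nat.card (Fin k → Alt n) =
          Nat.card {z : Fin k → Alt n // Good F (tupW z) (lv n α') ε} +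
          Nat.card {z : Fin k → Alt n // ¬ Good F (tupW z) (lv n α') ε} := by
        rw [Nat.card_eq_fintype_card, Nat.card_eq_fintype_card, Nat.card_eq_fintype_card,
          Fintype.card_subtype_compl]
        have := Fintype.card_subtype_le (fun z : Fin k → Alt n => Good F (tupW z) (lv n α') ε)
        omega
      have h2 : Nat.card {z : Fin k → Alt n // Good F (tupW z) (lv n α') ε} ≤
          Nat.card {x : Fin k → Alt n // ∀ r : ℕ, (r : ℝ) ≤ (n : ℝ) ^ α →
            GroupGap x r ε ∧ TupleGap x r ε} :=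
        Nat.card_le_card_of_injective (fun z => ⟨z.1, hgap z.1 z.2⟩) (by
          intro x y hxy
          have := congrArg Subtype.val hxy
          exact Subtype.ext this)
      rw [h1]
      push_cast
      have h3 : (Nat.card {z : Fin k → Alt n // Good F (tupW z) (lv n α') ε} : ℝ) ≤
          Nat.card {x : Fin k → Alt n // ∀ r : ℕ, (r : ℝ) ≤ (n : ℝ) ^ α →
            GroupGap x r ε ∧ TupleGap x r ε} := by exact_mod_cast h2
      linarith
    rw [hcards] at hsplit
    nlinarith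
  · filter_upwards [eventually_ge_atTop 1] with n hn
    have hcards : (0 : ℝ) < Nat.card (Fin k → Alt n) := by
      have : 0 < Nat.card (Fin k → Alt n) := Nat.card_pos
      exact_mod_cast this
    rw [div_le_one hcards]
    have := Nat.card_le_card_of_injective
      (fun x : {x : Fin k → Alt n // ∀ r : ℕ, (r : ℝ) ≤ (n : ℝ) ^ α →
        GroupGap x r ε ∧ TupleGap x r ε} => x.1) Subtype.val_injective
    exact_mod_cast this

end Pool.Agent.Helper6.W
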