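import Pool.Agent.Helper6.W.Claim
import Pool.Agent.Helper6.T5.Final

/-! The diameter with respect to a fixed number of random elements. -/

set_option linter.unusedSectionVars false

namespace Pool.Agent.Helper6.W

open Matrix Equiv Filter Topology Pool.Agent.Helper15.An Pool.Agent.Helper6.FixK
  Pool.Agent.Helper6.T5
open scoped ComplexOrder

variable {n : ℕ}

/-- short words move any tuple to any other tuple -/
theorem reach_tuple3 {k : ℕ} (hk : 0 < k) (z : Fin k → Alt n) {s t : ℕ} {ε : ℝ} (hε : 0 < ε)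
    (hgap : TupleGap z s ε) (ht : (n : ℝ) ^ s < 2 * (1 + ε / 2) ^ t)
    (a b : Fin s ↪ Fin n) : ∃ h : Perm (Fin n), (∀ i, h (a i) = b i) ∧
      Reach (fun i => (z i : Perm (Fin n))) (2 * t) h := by
  classical
  obtain ⟨l, hl, hab⟩ := Pool.Agent.Helper38.T5.P4_reach hk
    (fun i => act s (z i : Perm (Fin n))) ε hε (fun φ hφ => by
      have h1 := hgap φ hφ
      exact h1) t (by
      refine lt_of_le_of_lt ?_ ht
      rw [Fintype.card_embedding_eq, Fintype.card_fin, Fintype.card_fin]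
      exact_mod_cast Nat.descFactorial_le_pow n s) a b
  set h : Perm (Fin n) := (l.map fun p => if p.2 then (z p.1 : Perm (Fin n)) else
    (z p.1 : Perm (Fin n))⁻¹).prod with hh
  have hact : act s h = (l.map fun p => if p.2 then act s (z p.1 : Perm (Fin n)) else
      (act s (z p.1 : Perm (Fin n)))⁻¹).prod := by
    rw [hh, map_list_prod, List.map_map]
    congr 1
    apply List.map_congr_left
    rintro ⟨i, b⟩ _
    cases b <;> simp
  refine ⟨h, fun i => ?_, l, hl, rfl⟩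
  rw [← hact, act_apply] at hab
  have := congrArg (fun c : Fin s ↪ Fin n => c i) hab
  exact this

/-- the deterministic part -/
theorem diam_bound3 {k : ℕ} (hk : 0 < k) (z : Fin k → Alt n) (y : Alt n) {s M ℓ t τ : ℕ}
    {ε : ℝ} (hε : 0 < ε)
    (hs : s = 2 * τ + 1) (hτ : 1 ≤ τ) (hsn : s ≤ n) (hM : 2 ≤ M) (hc : Nat.Coprime M s)
    (hgap : TupleGap z s ε) (ht : (n : ℝ) ^ s < 2 * (1 + ε / 2) ^ t)
    (l₀ : List (Fin k × Bool)) (hl₀ : l₀.length ≤ ℓ)
    (hw : ((y * evl z l₀ : Alt n) : Perm (Fin n)).cycleType = {M, s}) (g : Alt n) :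
    ∃ m, τ * m ≤ (n + 40 * τ * (Nat.log 2 n + 1)) * (M * (ℓ + 1) + 4 * t) ∧
      Reach (Fin.cons y z : Fin (k + 1) → Alt n) m g := by
  classical
  set x : Fin (k + 1) → Alt n := Fin.cons y z with hx
  set X : Fin (k + 1) → Perm (Fin n) := fun i => (x i : Perm (Fin n)) with hX
  have hXz : X = Fin.cons (y : Perm (Fin n)) fun i => (z i : Perm (Fin n)) := by
    funext i
    refine Fin.cases ?_ (fun j => ?_) i <;> simp [hX, hx]
  -- the short cycle
  have h1 : Reach z ℓ (evl z l₀) := ⟨l₀, hl₀, rfl⟩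
  have h2 : Reach x (ℓ + 1) (y * evl z l₀) := by
    have h3 : Reach x 1 (x 0) := Reach.gen 0
    have h4 : Reach x ℓ (evl z l₀) := h1.succ
    have h5 := h3.mul h4
    rw [hx, Fin.cons_zero, ← hx] at h5
    exact h5.mono (by omega)
  set c₀ : Perm (Fin n) := ((y * evl z l₀ : Alt n) : Perm (Fin n)) ^ M with hc₀
  have h3 : Reach X (M * (ℓ + 1)) c₀ := (h2.map (Alt n).subtype).pow M
  obtain ⟨hcyc, hsup⟩ := Pool.Agent.Helper95.A.P3_pow (show 2 ≤ s by omega) hM hc _ hw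
  -- all cycles of length `s`
  have h4 : ∀ c : Perm (Fin n), c.IsCycle → c.support.card = s →
      Reach X (M * (ℓ + 1) + 4 * t) c := by
    intro c hcc hcs
    obtain ⟨a, b, hab⟩ := Pool.Agent.Helper95.A.P5_conj c₀ c hcyc hsup hcc hcs
    obtain ⟨h, hh1, hh2⟩ := reach_tuple3 hk z hε hgap ht a b
    have h5 : Reach X (2 * t) h := by
      rw [hXz]
      exact hh2.succ
    rw [← hab h hh1]
    exact ((h5.mul h3).mul h5.inv).mono (by omega)
  obtain ⟨L, hL1, hL2, hL3⟩ := sort_log hτ (by omega : 2 * τ + 1 ≤ n)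
    (g : Perm (Fin n)) (mem_Alt.1 g.2)
  have h5 := Reach.list_prod (x := X) (m := M * (ℓ + 1) + 4 * t) L fun c hc' =>
    h4 c (hL3 c hc').1 (by rw [(hL3 c hc').2, hs])
  rw [hL1] at h5
  refine ⟨L.length * (M * (ℓ + 1) + 4 * t), ?_, ?_⟩
  · calc τ * (L.length * (M * (ℓ + 1) + 4 * t)) = (τ * L.length) * (M * (ℓ + 1) + 4 * t) := by ring
      _ ≤ _ := Nat.mul_le_mul_right _ hL2
  · obtain ⟨l, hl, hlg⟩ := h5
    refine ⟨l, hl, ?_⟩
    apply Subtype.ext
    rw [← hlg]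
    have := map_list_prod (Alt n).subtype (l.map fun p => if p.2 then x p.1 else (x p.1)⁻¹)
    rw [List.map_map] at this
    refine this.trans ?_
    congr 1
    apply List.map_congr_left
    rintro ⟨i, b⟩ _
    cases b <;> simp [hX]

/-- the numerical conditions of the last step -/
structure Last (δ ε : ℝ) (n : ℕ) : Prop where
  h1 : 8 * (n : ℝ) ^ (1 - 3 / 4 * δ) ≤ (n : ℝ) ^ (1 - δ / 2)
  h2 : 5000 / ε * (Real.log n + 1) ^ 2 * (n : ℝ) ^ (1 + 3 / 4 * δ) ≤ (n : ℝ) ^ (1 + δ)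
  h3 : (20 : ℝ) ≤ (n : ℝ) ^ (1 - δ / 2)
  h4 : 4 * (n : ℝ) ^ (1 - δ / 2) ≤ n
  h5 : (3 : ℝ) ≤ (n : ℝ) ^ (1 - 3 / 4 * δ)

theorem ev_last3 (δ : ℝ) (hδ0 : 0 < δ) (hδ1 : δ ≤ 1 / 3) {ε : ℝ} (hε : 0 < ε) :
    ∀ᶠ n : ℕ in atTop, Last δ ε n := by
  have hlog : Tendsto (fun n : ℕ => Real.log n) atTop atTop :=
    Real.tendsto_log_atTop.comp tendsto_natCast_atTop_atTop
  have e1 := hlog.eventually (Pool.Agent.Helper6.T5.ev_exp (δ / 4) 8 (by positivity))
  have e2 := hlog.eventually (Pool.Agent.Helper6.T5.ev_quad (δ / 4) (5000 / ε) (by positivity)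
    (by positivity))
  have e3 := hlog.eventually (Pool.Agent.Helper6.T5.ev_exp (1 / 6) 20 (by norm_num))
  have e4 := hlog.eventually (Pool.Agent.Helper6.T5.ev_exp (δ / 2) 4 (by positivity))
  filter_upwards [e1, e2, e3, e4, eventually_ge_atTop 3] with n h1 h2 h3 h4 hn3
  have hn0 : (0 : ℝ) < n := by
    have : 0 < n := by omega
    exact_mod_cast this
  set L := Real.log n with hL
  have hL0 : 0 ≤ L := Real.log_nonneg (by
    have : 1 ≤ n := by omega
    exact_mod_cast this)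
  have hexp : ∀ b : ℝ, (n : ℝ) ^ b = Real.exp (b * L) := fun b => by
    rw [Real.rpow_def_of_pos hn0, mul_comm]
  have hn : (n : ℝ) = Real.exp L := (Real.exp_log hn0).symm
  refine ⟨?_, ?_, ?_, ?_, ?_⟩
  · rw [hexp, hexp]
    calc 8 * Real.exp ((1 - 3 / 4 * δ) * L) ≤
        Real.exp (δ / 4 * L) * Real.exp ((1 - 3 / 4 * δ) * L) := by gcongr
      _ = _ := by rw [← Real.exp_add]; congr 1; ring
  · rw [hexp, hexp]
    calc 5000 / ε * (L + 1) ^ 2 * Real.exp ((1 + 3 / 4 * δ) * L) ≤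
        Real.exp (δ / 4 * L) * Real.exp ((1 + 3 / 4 * δ) * L) := by gcongr
      _ = _ := by rw [← Real.exp_add]; congr 1; ring
  · rw [hexp]
    refine h3.trans (Real.exp_le_exp.2 ?_)
    nlinarith
  · rw [hexp]
    calc 4 * Real.exp ((1 - δ / 2) * L) ≤ Real.exp (δ / 2 * L) * Real.exp ((1 - δ / 2) * L) := by
          gcongr
      _ = n := by rw [← Real.exp_add, hn]; congr 1; ring
  · rw [hexp]
    have h6 : (3 : ℝ) ≤ Real.exp (1 / 6 * L) := by linarith
    refine h6.trans (Real.exp_le_exp.2 ?_)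
    nlinarith

/-- the deterministic conclusion, with real exponents -/
theorem smallDiam_of3 {δ ε : ℝ} (hδ0 : 0 < δ) (hδ1 : δ ≤ 1 / 3) (hε : 0 < ε) (hε1 : ε ≤ 1)
    {n k : ℕ} (hk : 0 < k) (hn : 3 ≤ n) (hlast : Last δ ε n)
    {s : ℕ} (hsp : s.Prime) (hs1 : (n : ℝ) ^ (1 - 3 / 4 * δ) ≤ s)
    (hs2 : (s : ℝ) ≤ (n : ℝ) ^ (1 - δ / 2)) (hdvd : ¬ s ∣ 2 * (n / 2))
    (F : PW (Perm (Fin n))) (z : Fin k → Alt n) (y : Alt n)
    (hgood : Good F (tupW z) ⌊(n : ℝ) ^ (1 - δ / 2)⌋₊ ε)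
    (l₀ : List (Fin k × Bool)) (hl₀ : l₀.length ≤ len n)
    (hw : y * evl z l₀ ∈ cls n (2 * (n / 2) - s) s) :
    SmallDiam (Fin.cons y z : Fin (k + 1) → Alt n) ((n : ℝ) ^ (1 + δ)) := by
  obtain ⟨h1, h2, h3, h4, h5⟩ := hlast
  have hn0 : (0 : ℝ) < n := by
    have : 0 < n := by omega
    exact_mod_cast this
  have hn1 : (1 : ℝ) ≤ n := by
    have : 1 ≤ n := by omega
    exact_mod_cast this
  have hL0 : 0 ≤ Real.log n := Real.log_nonneg hn1
  set L := Real.log n with hL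
  have hs3 : 3 ≤ s := by
    have : (3 : ℝ) ≤ s := h5.trans hs1
    exact_mod_cast this
  have hs4 : 4 * s ≤ n := by
    have : 4 * (s : ℝ) ≤ n := by linarith
    exact_mod_cast this
  have hodd : s % 2 = 1 := by
    rcases hsp.eq_two_or_odd with h | h
    · omega
    · exact h
  set τ := (s - 1) / 2 with hτ
  have hsτ : s = 2 * τ + 1 := by omega
  set M := 2 * (n / 2) - s with hM
  have hM2 : 2 ≤ M := by omega
  have hMn : M ≤ n := by omega
  have hcop : Nat.Coprime M s := by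
    rw [Nat.coprime_comm, Nat.Prime.coprime_iff_not_dvd hsp]
    intro h
    apply hdvd
    have h6 : 2 * (n / 2) = M + s := by omega
    rw [h6]
    exact Dvd.dvd.add h (dvd_refl s)
  -- the gap on tuples
  have hsp' : s ≤ ⌊(n : ℝ) ^ (1 - δ / 2)⌋₊ := Nat.le_floor hs2
  have hgap : TupleGap z s ε :=
    tupleGap_of_groupGap z (by omega) ((groupGap_of_good F z _ _ hgood).mono hsp')
  set t := ⌈4 * s * L / ε⌉₊ with ht
  have ht1 : 4 * s * L / ε ≤ t := Nat.le_ceil _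
  have ht2 : (t : ℝ) ≤ 4 * s * L / ε + 1 := (Nat.ceil_lt_add_one (by positivity)).le
  have hlogε : ε / 4 ≤ Real.log (1 + ε / 2) := by
    have h6 := Real.one_sub_inv_le_log_of_pos (show (0 : ℝ) < 1 + ε / 2 by positivity)
    have h7 : ε / 4 ≤ 1 - (1 + ε / 2)⁻¹ := by
      have h8 : (1 + ε / 2)⁻¹ ≤ 1 - ε / 4 := by
        rw [inv_le_comm₀ (by positivity) (by linarith)]
        rw [inv_le_comm₀ (by linarith) (by positivity)]
        have h9 : (1 : ℝ) ≤ (1 - ε / 4) * (1 + ε / 2) := by nlinarith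
        rw [inv_le_iff_one_le_mul₀ (by positivity)]
        exact h9
      linarith
    linarith
  have hts : (n : ℝ) ^ s < 2 * (1 + ε / 2) ^ t := by
    have h6 : (n : ℝ) ^ s = Real.exp (s * L) := by
      rw [Real.exp_nat_mul, hL, Real.exp_log hn0]
    have h7 : (1 + ε / 2 : ℝ) ^ t = Real.exp (t * Real.log (1 + ε / 2)) := by
      rw [Real.exp_nat_mul, Real.exp_log (by positivity)]
    have h8 : Real.exp (s * L) ≤ (1 + ε / 2 : ℝ) ^ t := by
      rw [h7]
      apply Real.exp_le_exp.2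
      have h9 : 4 * s * L / ε * (ε / 4) ≤ t * Real.log (1 + ε / 2) :=
        mul_le_mul ht1 hlogε (by positivity) (Nat.cast_nonneg _)
      have h10 : 4 * s * L / ε * (ε / 4) = s * L := by field_simp
      linarith
    rw [h6]
    have := Real.exp_pos (s * L)
    linarith
  intro g
  obtain ⟨m, hm, l, hl, hlg⟩ := diam_bound3 hk z y hε hsτ (by omega) (by omega) hM2 hcop hgap hts
    l₀ hl₀ (mem_cls.1 hw) g
  refine ⟨l, ?_, hlg⟩
  have hlm : (l.length : ℝ) ≤ m := by exact_mod_cast hl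
  refine hlm.trans ?_
  -- numerics
  have hm' : (τ : ℝ) * m ≤ (n + 40 * τ * (Nat.log 2 n + 1)) * (M * (len n + 1) + 4 * t) := by
    exact_mod_cast hm
  have hsτr : (s : ℝ) = 2 * τ + 1 := by rw [hsτ]; push_cast; ring
  have hτ1 : (1 : ℝ) ≤ τ := by
    have : 1 ≤ τ := by omega
    exact_mod_cast this
  have hlen : (len n : ℝ) ≤ 6 * L + 1 := (Nat.ceil_lt_add_one (by positivity)).le
  have hsn : (s : ℝ) ≤ n := by
    have : s ≤ n := by omega
    exact_mod_cast this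
  have hMr : (M : ℝ) ≤ n := by exact_mod_cast hMn
  have hlog2 : (Nat.log 2 n : ℝ) ≤ 2 * L := by
    have h6 : (2 : ℝ) ^ (Nat.log 2 n) ≤ n := by
      exact_mod_cast Nat.pow_log_le_self 2 (by omega)
    have h7 := Real.log_le_log (by positivity) h6
    rw [Real.log_pow] at h7
    have h8 : (1 / 2 : ℝ) ≤ Real.log 2 := by
      have := Real.log_two_gt_d9
      linarith
    have h9 : (Nat.log 2 n : ℝ) * (1 / 2) ≤ Nat.log 2 n * Real.log 2 := by gcongr
    linarith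
  have hA : (n : ℝ) + 40 * τ * (Nat.log 2 n + 1) ≤ 62 * n * (L + 1) := by
    have h6 : 2 * (τ : ℝ) ≤ n := by linarith
    have h7 : 40 * (τ : ℝ) * (Nat.log 2 n + 1) ≤ 20 * n * (2 * L + 1) := by
      calc 40 * (τ : ℝ) * (Nat.log 2 n + 1) = 20 * (2 * τ) * (Nat.log 2 n + 1) := by ring
        _ ≤ 20 * n * (2 * L + 1) := by gcongr
    have h8 : 0 ≤ (n : ℝ) * L := by positivity
    linarith
  have hε1' : 1 ≤ 1 / ε := by rw [le_div_iff₀ hε]; linarith
  have hB : (M : ℝ) * (len n + 1) + 4 * t ≤ 26 / ε * n * (L + 1) := by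
    have h6 : (M : ℝ) * (len n + 1) ≤ n * (6 * (L + 1)) := by
      have : (len n : ℝ) + 1 ≤ 6 * (L + 1) := by linarith
      gcongr
    have h7 : 4 * (t : ℝ) ≤ 16 / ε * (n * L) + 4 := by
      have h8 : (s : ℝ) * L ≤ n * L := by gcongr
      have h9 : 4 * s * L / ε = 4 / ε * (s * L) := by ring
      have h10 : 4 / ε * (s * L) ≤ 4 / ε * (n * L) := by gcongr
      have h11 : 16 / ε * (n * L) = 4 * (4 / ε * (n * L)) := by ring
      rw [h11]
      linarith
    have h8 : 0 ≤ (n : ℝ) * L := by positivity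
    have h12 : (1 : ℝ) ≤ n * (L + 1) := by nlinarith
    have h13 : (n : ℝ) * (L + 1) ≤ 1 / ε * (n * (L + 1)) := by
      nlinarith
    have h14 : 16 / ε * (n * L) ≤ 16 * (1 / ε * (n * (L + 1))) := by
      have : (n : ℝ) * L ≤ n * (L + 1) := by nlinarith
      calc 16 / ε * (n * L) ≤ 16 / ε * (n * (L + 1)) := by gcongr
        _ = _ := by ring
    have h15 : 26 / ε * n * (L + 1) = 26 * (1 / ε * (n * (L + 1))) := by ring
    rw [h15]
    linarith
  have hC : (τ : ℝ) * m ≤ 1612 / ε * n ^ 2 * (L + 1) ^ 2 := by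
    refine hm'.trans ?_
    calc ((n : ℝ) + 40 * τ * (Nat.log 2 n + 1)) * (M * (len n + 1) + 4 * t) ≤
        (62 * n * (L + 1)) * (26 / ε * n * (L + 1)) := by
          gcongr
      _ = _ := by ring
  have hD : (s : ℝ) * m ≤ 5000 / ε * n ^ 2 * (L + 1) ^ 2 := by
    have h6 : (s : ℝ) ≤ 3 * τ := by rw [hsτr]; linarith
    have h7 : 0 ≤ n ^ 2 * (L + 1) ^ 2 / ε := by positivity
    calc (s : ℝ) * m ≤ 3 * τ * m := by gcongr
      _ = 3 * (τ * m) := by ring
      _ ≤ 3 * (1612 / ε * n ^ 2 * (L + 1) ^ 2) := by gcongr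
      _ = 4836 * (n ^ 2 * (L + 1) ^ 2 / ε) := by ring
      _ ≤ 5000 * (n ^ 2 * (L + 1) ^ 2 / ε) := by linarith
      _ = _ := by ring
  have hE : (n : ℝ) ^ (1 - 3 / 4 * δ) * m ≤
      (n : ℝ) ^ (1 - 3 / 4 * δ) * (n : ℝ) ^ (1 + δ) := by
    calc (n : ℝ) ^ (1 - 3 / 4 * δ) * m ≤ s * m := by gcongr
      _ ≤ 5000 / ε * n ^ 2 * (L + 1) ^ 2 := hD
      _ = (n : ℝ) ^ (1 - 3 / 4 * δ) *
          (5000 / ε * (L + 1) ^ 2 * (n : ℝ) ^ (1 + 3 / 4 * δ)) := by
          have h6 : (n : ℝ) ^ 2 = (n : ℝ) ^ (1 - 3 / 4 * δ) * (n : ℝ) ^ (1 + 3 / 4 * δ) := by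
            rw [← Real.rpow_add hn0, ← Real.rpow_natCast]
            congr 1
            push_cast
            ring
          rw [h6]; ring
      _ ≤ _ := by gcongr
  exact le_of_mul_le_mul_left hE (Real.rpow_pos_of_pos hn0 _)

end Pool.Agent.Helper6.W
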