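import Pool.Agent.Helper47.W.OnceCount
import Pool.Agent.Helper74.W.Twice
import Pool.Agent.Helper38.W.Star
import Pool.Agent.Helper75.W.WiseOfLevels
import Pool.Agent.Helper31.W.DimBound
import Pool.Agent.Helper96.W.SortLog

/-! The ingredients: switching count, moment count and their combination, near uniformity of the
law of the walk, the dimension bound and products of cycles. -/

namespace Pool.Agent.Helper6.W

open Matrix Equiv Pool.Agent.Helper15.An Pool.Agent.Helper6.FixK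
open scoped ComplexOrder

variable {n : ℕ}

/-- alternating words rarely have many fixed points -/
theorem star {m q f F : ℕ} {κ : Perm (Fin n) → ℝ} (hκ : Wise κ m) (hm : 2 * m ≤ n)
    (hq : 4 * q ≤ n) (hF : 0 < F) (hmF : 4 * m ≤ F) (hfF : 16 * (f * q ^ 2) ≤ F)
    (hfn : 4 * (f * q) ≤ n) :
    ∑ y : Perm (Fin n), ∑ Z : Fin (2 * q) → Perm (Fin n), (∏ t, κ (Z t)) *
        (if F ≤ fixc (pos y (ext Z) (2 * q)) then (1 : ℝ) else 0) ≤
      (n.factorial : ℝ) * ((16 * q / F : ℝ) ^ f +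
        (4 * n / F : ℝ) ^ m *
          (2 ^ (2 * q) * 2 ^ (2 * q * m) * (4 * q / n : ℝ) ^ (m * q))) :=
  Pool.Agent.Helper38.W.star
    (fun Z T f ps h => Pool.Agent.Helper47.W.once_count Z T f ps h)
    (fun hk h2 hq y ps => Pool.Agent.Helper74.W.twice_count hk h2 hq y ps)
    hκ hm hq hF hmF hfF hfn

theorem wise_of_levels (F : PW (Perm (Fin n))) (κ : Perm (Fin n) → ℝ)
    (h1 : ∑ g, κ g = 1) (h2 : ∀ g, g ∉ Alt n → κ g = 0) (p : ℕ) (hp : p + 2 ≤ n)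
    (δ : ℝ) (hδ : 0 ≤ δ)
    (hW : ∀ i, ¬ Triv (F.ρ i) (Alt n) → HasFix (F.ρ i) (stab n p) →
      (wop (F.ρ i) κ).PosSemidef ∧
      (δ • (1 : Matrix (Fin (F.D i)) (Fin (F.D i)) ℂ) - wop (F.ρ i) κ).PosSemidef)
    (j : ℕ) (hj : j ≤ p) (a b : Fin j ↪ Fin n) :
    ∑ g ∈ Finset.univ.filter (fun g : Perm (Fin n) => ∀ i, g (a i) = b i), κ g ≤
      1 / (n.descFactorial j : ℝ) + δ :=
  Pool.Agent.Helper75.W.wise_of_levels F κ h1 h2 p hp δ hδ hW j hj a b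

theorem dim_bound {d : Type} [Fintype d] [DecidableEq d] {T : Matrix d d ℂ}
    (hT : T.IsHermitian) (hT1 : ((1 : ℝ) • (1 : Matrix d d ℂ) - T).PosSemidef)
    (hT2 : (T - (-1 : ℝ) • (1 : Matrix d d ℂ)).PosSemidef)
    {B : ℕ} (hB : 0 < B) (x : Fin B → Matrix d d ℂ) (hx : ∀ b, (x b)ᴴ * x b = 1)
    (η : ℝ) (h0 : 0 < η) (h1 : η ≤ 1) (l q : ℕ)
    (hH : ((1 / 2 : ℝ) • (T + avgRe x)).IsHermitian) (b : Fin B) :
    (Fintype.card (TopIdx hH (1 - η / (100 * B))) : ℝ) * ((1 - η / 2) ^ (4 * l) / 4) ^ q ≤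
      (trace (((((1 / 2 : ℝ) • ((1 : Matrix d d ℂ) + T)) ^ (2 * l)) *
        ((x b)ᴴ * (((1 / 2 : ℝ) • ((1 : Matrix d d ℂ) + T)) ^ (2 * l)) * x b)) ^ q)).re :=
  Pool.Agent.Helper31.W.dim_bound hT hT1 hT2 hB x hx η h0 h1 l q hH b

theorem sort_log {n t : ℕ} (ht : 1 ≤ t) (hn : 2 * t + 1 ≤ n) (π : Perm (Fin n))
    (hπ : Perm.sign π = 1) : ∃ l : List (Perm (Fin n)), l.prod = π ∧
      t * l.length ≤ n + 40 * t * (Nat.log 2 n + 1) ∧
      ∀ c ∈ l, c.IsCycle ∧ c.support.card = 2 * t + 1 :=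
  Pool.Agent.Helper96.W.sort_log ht hn π hπ

end Pool.Agent.Helper6.W
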