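import Pool.Agent.Helper6.W.Stage

/-! Appending fresh elements to a good tuple: passage from the mixture to the long tuple, and
the combined count. -/

set_option linter.unusedSectionVars false

namespace Pool.Agent.Helper6.W

open Matrix Equiv Pool.Agent.Helper15.An Pool.Agent.Helper6.FixK
open scoped ComplexOrder

variable {n : ℕ}

/-- first part of a tuple -/
def fstT {k B m : ℕ} (w : Fin (k + B + m) → Alt n) : Fin k → Alt n :=
  fun i => w (Fin.castAdd m (Fin.castAdd B i))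

/-- second part of a tuple -/
def sndT {k B m : ℕ} (w : Fin (k + B + m) → Alt n) : Fin B → Alt n :=
  fun b => w (Fin.castAdd m (Fin.natAdd k b))

/-- third part of a tuple -/
def trdT {k B m : ℕ} (w : Fin (k + B + m) → Alt n) : Fin m → Alt n :=
  fun l => w (Fin.natAdd (k + B) l)

theorem rel_append {D : ℕ} (ρ : Perm (Fin n) →* Matrix (Fin D) (Fin D) ℂ)
    {k B m : ℕ} (hk : 0 < k) (hB : 0 < B) (hm : 0 < m) (w : Fin (k + B + m) → Alt n) :
    (2 * ((k + B + m : ℕ) : ℝ)) • ((1 : Matrix (Fin D) (Fin D) ℂ) -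
      avgRe fun l => ρ (w l : Perm (Fin n))) =
    (2 * (k : ℝ)) • ((1 : Matrix (Fin D) (Fin D) ℂ) -
        avgRe fun l => ρ (fstT w l : Perm (Fin n))) +
      (2 * (B : ℝ)) • ((1 : Matrix (Fin D) (Fin D) ℂ) -
        avgRe fun l => ρ (sndT w l : Perm (Fin n))) +
      (2 * (m : ℝ)) • ((1 : Matrix (Fin D) (Fin D) ℂ) -
        avgRe fun l => ρ (trdT w l : Perm (Fin n))) := by
  rw [avgRe_energy (by omega : 0 < k + B + m), avgRe_energy hk, avgRe_energy hB,
    avgRe_energy hm, Fin.sum_univ_add, Fin.sum_univ_add]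
  rfl

theorem good_append (F : PW (Perm (Fin n))) {k B m : ℕ} (hk : 0 < k) (hB : 0 < B) (hm : 0 < m)
    (w : Fin (k + B + m) → Alt n) (p : ℕ) (ε : ℝ)
    (h : Good F (mixW (mixW (tupW (fstT w)) (tupW (sndT w))) (tupW (trdT w))) p ε) :
    Good F (tupW w) p (ε / ((k + B + m : ℕ) : ℝ)) := by
  intro i hi hf
  have hu := (F.irr i).unit
  have hK : (0 : ℝ) < ((k + B + m : ℕ) : ℝ) := by
    have : 0 < k + B + m := by omega
    exact_mod_cast this
  have hk1 : (1 : ℝ) ≤ k := by exact_mod_cast hk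
  have hB1 : (1 : ℝ) ≤ B := by exact_mod_cast hB
  have hm1 : (1 : ℝ) ≤ m := by exact_mod_cast hm
  have h0 := h i hi hf
  rw [wop_mixW, wop_mixW, wop_tupW (F.ρ i) hu, wop_tupW (F.ρ i) hu, wop_tupW (F.ρ i) hu] at h0
  have hone : ∀ {j : ℕ} (hj : 0 < j) (x : Fin j → Alt n),
      ((1 : Matrix (Fin (F.D i)) (Fin (F.D i)) ℂ) -
        avgRe fun b => F.ρ i (x b : Perm (Fin n))).PosSemidef := by
    intro j hj x
    have := one_sub_wop (F.ρ i) hu (tupW_isSP hj x)
    rwa [wop_tupW (F.ρ i) hu, one_smul] at this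
  have h1 := hone hk (fstT w)
  have h2 := hone hB (sndT w)
  have h3 := hone hm (trdT w)
  have hrel := rel_append (F.ρ i) hk hB hm w
  rw [wop_tupW (F.ρ i) hu]
  have h4 : (((k + B + m : ℕ) : ℝ) • ((1 - ε / ((k + B + m : ℕ) : ℝ)) •
      (1 : Matrix (Fin (F.D i)) (Fin (F.D i)) ℂ) -
      avgRe fun l => F.ρ i (w l : Perm (Fin n)))).PosSemidef := by
    have h5 : ((k + B + m : ℕ) : ℝ) • ((1 : Matrix (Fin (F.D i)) (Fin (F.D i)) ℂ) -
      avgRe fun l => F.ρ i (w l : Perm (Fin n))) =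
      (k : ℝ) • ((1 : Matrix (Fin (F.D i)) (Fin (F.D i)) ℂ) -
        avgRe fun l => F.ρ i (fstT w l : Perm (Fin n))) +
      (B : ℝ) • ((1 : Matrix (Fin (F.D i)) (Fin (F.D i)) ℂ) -
        avgRe fun l => F.ρ i (sndT w l : Perm (Fin n))) +
      (m : ℝ) • ((1 : Matrix (Fin (F.D i)) (Fin (F.D i)) ℂ) -
        avgRe fun l => F.ρ i (trdT w l : Perm (Fin n))) := by
      have h6 := congrArg (fun M => (1 / 2 : ℝ) • M) hrel
      simp only [smul_add, smul_smul] at h6
      convert h6 using 1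
      · congr 1; ring
      · congr 1
        · congr 1
          · congr 1; ring
          · congr 1; ring
        · congr 1; ring
    have h6 : ((k + B + m : ℕ) : ℝ) • ((1 - ε / ((k + B + m : ℕ) : ℝ)) •
      (1 : Matrix (Fin (F.D i)) (Fin (F.D i)) ℂ) -
      avgRe fun l => F.ρ i (w l : Perm (Fin n))) =
      ((1 - ε) • (1 : Matrix (Fin (F.D i)) (Fin (F.D i)) ℂ) -
        (1 / 2 : ℝ) • ((1 / 2 : ℝ) • ((avgRe fun l => F.ρ i (fstT w l : Perm (Fin n))) +
          avgRe fun l => F.ρ i (sndT w l : Perm (Fin n))) +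
          avgRe fun l => F.ρ i (trdT w l : Perm (Fin n)))) +
      ((k : ℝ) - 1 / 4) • ((1 : Matrix (Fin (F.D i)) (Fin (F.D i)) ℂ) -
        avgRe fun l => F.ρ i (fstT w l : Perm (Fin n))) +
      ((B : ℝ) - 1 / 4) • ((1 : Matrix (Fin (F.D i)) (Fin (F.D i)) ℂ) -
        avgRe fun l => F.ρ i (sndT w l : Perm (Fin n))) +
      ((m : ℝ) - 1 / 2) • ((1 : Matrix (Fin (F.D i)) (Fin (F.D i)) ℂ) -
        avgRe fun l => F.ρ i (trdT w l : Perm (Fin n))) := by
      have h7 : ((k + B + m : ℕ) : ℝ) • ((1 - ε / ((k + B + m : ℕ) : ℝ)) •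
        (1 : Matrix (Fin (F.D i)) (Fin (F.D i)) ℂ) -
        avgRe fun l => F.ρ i (w l : Perm (Fin n))) =
        ((k + B + m : ℕ) : ℝ) • ((1 : Matrix (Fin (F.D i)) (Fin (F.D i)) ℂ) -
          avgRe fun l => F.ρ i (w l : Perm (Fin n))) -
          ε • (1 : Matrix (Fin (F.D i)) (Fin (F.D i)) ℂ) := by
        rw [smul_sub, smul_sub, smul_smul, mul_sub, mul_one, mul_div_cancel₀ _ hK.ne', sub_smul]
        abel
      rw [h7, h5]
      module
    rw [h6]
    exact ((h0.add (h1.smul (by linarith))).add (h2.smul (by linarith))).add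
      (h3.smul (by linarith))
  have h8 := h4.smul (show (0 : ℝ) ≤ ((k + B + m : ℕ) : ℝ)⁻¹ by positivity)
  rw [smul_smul, inv_mul_cancel₀ hK.ne', one_smul] at h8
  exact h8

theorem two_count {Z Y : Type} [Fintype Z] [Fintype Y] (P : Z → Prop) (Q : Z → Y → Prop)
    (a b : ℝ) (hb0 : 0 ≤ b) (ha : (Nat.card {z : Z // ¬ P z} : ℝ) ≤ Fintype.card Z * a)
    (hb : ∀ z, P z → (Nat.card {y : Y // ¬ Q z y} : ℝ) ≤ Fintype.card Y * b) :
    (Nat.card {t : Z × Y // ¬ (P t.1 ∧ Q t.1 t.2)} : ℝ) ≤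
      Fintype.card Z * Fintype.card Y * (a + b) := by
  classical
  have h1 : Nat.card {t : Z × Y // ¬ (P t.1 ∧ Q t.1 t.2)} =
      ∑ z, Nat.card {y : Y // ¬ (P z ∧ Q z y)} := by
    rw [Nat.card_congr (Equiv.subtypeProdEquivSigmaSubtype fun z y => ¬ (P z ∧ Q z y)),
      Nat.card_sigma]
  have h2 : ∀ z, (Nat.card {y : Y // ¬ (P z ∧ Q z y)} : ℝ) ≤
      Fintype.card Y * b + (if ¬ P z then (Fintype.card Y : ℝ) else 0) := by
    intro z
    by_cases hz : P z
    · rw [if_neg (not_not.2 hz), add_zero]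
      refine le_trans ?_ (hb z hz)
      have h3 : Nat.card {y : Y // ¬ (P z ∧ Q z y)} ≤ Nat.card {y : Y // ¬ Q z y} :=
        Nat.card_le_card_of_injective (fun y => ⟨y.1, fun h => y.2 ⟨hz, h⟩⟩) (by
          intro x y hxy
          have := congrArg Subtype.val hxy
          exact Subtype.ext this)
      exact_mod_cast h3
    · rw [if_pos hz]
      have h3 : Nat.card {y : Y // ¬ (P z ∧ Q z y)} ≤ Nat.card Y :=
        Nat.card_le_card_of_injective (fun y => y.1) Subtype.val_injective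
      rw [Nat.card_eq_fintype_card (α := Y)] at h3
      have h4 : (Nat.card {y : Y // ¬ (P z ∧ Q z y)} : ℝ) ≤ Fintype.card Y := by
        exact_mod_cast h3
      have h5 : 0 ≤ (Fintype.card Y : ℝ) * b := by positivity
      linarith
  rw [h1]
  push_cast
  refine (Finset.sum_le_sum fun z _ => h2 z).trans ?_
  rw [Finset.sum_add_distrib, Finset.sum_const, Finset.card_univ, nsmul_eq_mul,
    ← Finset.sum_filter, Finset.sum_const, nsmul_eq_mul]
  rw [Nat.card_eq_fintype_card, Fintype.card_subtype] at ha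
  have h6 : (0 : ℝ) ≤ Fintype.card Y := Nat.cast_nonneg _
  nlinarith [mul_le_mul_of_nonneg_right ha h6]

theorem three_count {Z Y X : Type} [Fintype Z] [Fintype Y] [Fintype X] (P : Z → Prop)
    (Q : Z → Y → Prop) (R : Z → Y → X → Prop)
    (a b c : ℝ) (hb0 : 0 ≤ b) (hc0 : 0 ≤ c)
    (ha : (Nat.card {z : Z // ¬ P z} : ℝ) ≤ Fintype.card Z * a)
    (hb : ∀ z, P z → (Nat.card {y : Y // ¬ Q z y} : ℝ) ≤ Fintype.card Y * b)
    (hc : ∀ z y, P z → Q z y → (Nat.card {x : X // ¬ R z y x} : ℝ) ≤ Fintype.card X * c) :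
    (Nat.card {t : Z × Y × X // ¬ (P t.1 ∧ Q t.1 t.2.1 ∧ R t.1 t.2.1 t.2.2)} : ℝ) ≤
      Fintype.card Z * Fintype.card Y * Fintype.card X * (a + b + c) := by
  have h1 := two_count P (fun z (t : Y × X) => Q z t.1 ∧ R z t.1 t.2) a (b + c)
    (by linarith) ha (fun z hz => by
      have h2 := two_count (Q z) (R z) b c hc0 (hb z hz) (fun y hy => hc z y hz hy)
      rw [Fintype.card_prod]
      push_cast
      exact h2)
  rw [Fintype.card_prod] at h1
  push_cast at h1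
  refine h1.trans (le_of_eq ?_)
  ring

/-- the combined count -/
theorem append_count (F : PW (Perm (Fin n))) {k B m : ℕ} (hk : 0 < k) (hB : 0 < B) (hm : 0 < m)
    (p p' : ℕ) (ε ε' η : ℝ) (τ : ℕ → ℝ) (a b c : ℝ) (hb0 : 0 ≤ b) (hc0 : 0 ≤ c)
    (ha : (Nat.card {z : Fin k → Alt n // ¬ Good F (tupW z) p ε} : ℝ) ≤
      (Fintype.card (Alt n) : ℝ) ^ k * a)
    (hb : ∀ z : Fin k → Alt n, Good F (tupW z) p ε →
      (Nat.card {y : Fin B → Alt n // ¬ DimOK F (tupW_isSP hk z) p p' η τ y} : ℝ) ≤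
        (Fintype.card (Alt n) : ℝ) ^ B * b)
    (hc : ∀ (z : Fin k → Alt n) (y : Fin B → Alt n), Good F (tupW z) p ε →
      DimOK F (tupW_isSP hk z) p p' η τ y →
      (Nat.card {x : Fin m → Alt n // ¬ Good F (mixW (mixW (tupW z) (tupW y)) (tupW x)) p' ε'} :
        ℝ) ≤ (Fintype.card (Alt n) : ℝ) ^ m * c) :
    (Nat.card {w : Fin (k + B + m) → Alt n //
      ¬ Good F (tupW w) p' (ε' / ((k + B + m : ℕ) : ℝ))} : ℝ) ≤
      (Fintype.card (Alt n) : ℝ) ^ (k + B + m) * (a + b + c) := by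
  have hcard : ∀ j : ℕ, (Fintype.card (Fin j → Alt n) : ℝ) = (Fintype.card (Alt n) : ℝ) ^ j := by
    intro j
    rw [Fintype.card_fun, Fintype.card_fin]
    push_cast
    rfl
  have h1 := three_count (Z := Fin k → Alt n) (Y := Fin B → Alt n) (X := Fin m → Alt n)
    (fun z => Good F (tupW z) p ε) (fun z y => DimOK F (tupW_isSP hk z) p p' η τ y)
    (fun z y x => Good F (mixW (mixW (tupW z) (tupW y)) (tupW x)) p' ε') a b c hb0 hc0
    (by rw [hcard]; exact ha) (fun z hz => by rw [hcard]; exact hb z hz)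
    (fun z y hz hy => by rw [hcard]; exact hc z y hz hy)
  have h2 : Nat.card {w : Fin (k + B + m) → Alt n //
      ¬ Good F (tupW w) p' (ε' / ((k + B + m : ℕ) : ℝ))} ≤
      Nat.card {t : (Fin k → Alt n) × (Fin B → Alt n) × (Fin m → Alt n) //
        ¬ (Good F (tupW t.1) p ε ∧ DimOK F (tupW_isSP hk t.1) p p' η τ t.2.1 ∧
          Good F (mixW (mixW (tupW t.1) (tupW t.2.1)) (tupW t.2.2)) p' ε')} := by
    refine Nat.card_le_card_of_injective (fun w => ⟨(fstT w.1, sndT w.1, trdT w.1),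
      fun h => w.2 (good_append F hk hB hm w.1 p' ε' h.2.2)⟩) ?_
    rintro ⟨w, hw⟩ ⟨v, hv⟩ h
    simp only [Subtype.mk.injEq, Prod.mk.injEq] at h
    obtain ⟨h3, h4, h5⟩ := h
    refine Subtype.ext (funext fun l => ?_)
    refine Fin.addCases (fun a => ?_) (fun b => ?_) l
    · refine Fin.addCases (fun a' => ?_) (fun b' => ?_) a
      · exact congrFun h3 a'
      · exact congrFun h4 b'
    · exact congrFun h5 b
  rw [hcard, hcard, hcard] at h1
  calc (Nat.card {w : Fin (k + B + m) → Alt n //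
      ¬ Good F (tupW w) p' (ε' / ((k + B + m : ℕ) : ℝ))} : ℝ) ≤ _ := by exact_mod_cast h2
    _ ≤ _ := h1
    _ = _ := by rw [pow_add, pow_add]

end Pool.Agent.Helper6.W
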