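import Pool.Agent.Helper15.An.Count

/-! Alternating words `Z_{T-1} y⁻¹ ⋯ Z_1 y⁻¹ Z_0 y` in a permutation `y` and letters `Z_t`. -/

namespace Pool.Agent.Helper6.W

open Equiv

variable {n : ℕ}

/-- crossing at time `t`: `y` at even times, `y⁻¹` at odd times -/
def cr (y : Perm (Fin n)) (t : ℕ) : Perm (Fin n) := if Even t then y else y⁻¹

/-- position before the crossing at time `t`, as a function of the starting point -/
def pos (y : Perm (Fin n)) (Z : ℕ → Perm (Fin n)) : ℕ → Perm (Fin n)
  | 0 => 1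
  | t + 1 => Z t * cr y t * pos y Z t

/-- source `a` of the edge `(a, y a)` crossed at time `t`, as a function of the starting point -/
def lab (y : Perm (Fin n)) (Z : ℕ → Perm (Fin n)) (t : ℕ) : Perm (Fin n) :=
  if Even t then pos y Z t else y⁻¹ * pos y Z t

/-- some edge is crossed exactly once during the first `T` steps from `p` -/
def Once (y : Perm (Fin n)) (Z : ℕ → Perm (Fin n)) (T : ℕ) (p : Fin n) : Prop :=
  ∃ t < T, ∀ t' < T, t' ≠ t → lab y Z t' p ≠ lab y Z t p

/-- the trajectories of `p` and `q` cross no common edge -/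
def Apart (y : Perm (Fin n)) (Z : ℕ → Perm (Fin n)) (T : ℕ) (p q : Fin n) : Prop :=
  ∀ t < T, ∀ t' < T, lab y Z t p ≠ lab y Z t' q

/-- extension of a finite sequence of letters -/
def ext {T : ℕ} (Z : Fin T → Perm (Fin n)) (t : ℕ) : Perm (Fin n) :=
  if h : t < T then Z ⟨t, h⟩ else 1

/-- a probability weight which is nearly `m`-wise uniform (up to a factor two) -/
structure Wise (κ : Perm (Fin n) → ℝ) (m : ℕ) : Prop where
  nonneg : ∀ g, 0 ≤ κ g
  sum : ∑ g, κ g = 1
  wise : ∀ j ≤ m, ∀ a b : Fin j ↪ Fin n,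
    ∑ g ∈ Finset.univ.filter (fun g : Perm (Fin n) => ∀ i, g (a i) = b i), κ g ≤
      2 / (n.descFactorial j : ℝ)

end Pool.Agent.Helper6.W
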