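import Pool.Agent.Helper6.W.Diam

/-! The diameter with respect to a fixed number of random elements: the probabilistic part. -/

set_option linter.unusedSectionVars false

namespace Pool.Agent.Helper6.W

open Matrix Equiv Filter Topology Pool.Agent.Helper15.An Pool.Agent.Helper6.FixK
  Pool.Agent.Helper6.T5
open scoped ComplexOrder

/-- the fraction of tuples with a small diameter -/
theorem card_bound3 {n k : ℕ} (δ ε : ℝ) (hδ0 : 0 < δ) (hδ1 : δ ≤ 1 / 3) (hε : 0 < ε)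
    (hε1 : ε ≤ 1) (hk : 0 < k) (hn : 64 ≤ n) (hlast : Last δ ε n)
    (F : PW (Perm (Fin n)))
    (hβ : ∀ Z : Finset (Fin k → Alt n), (∀ z ∈ Z, Good F (tupW z) 20 (1 / 2)) →
      ∀ i, ¬ Triv (F.ρ i) (Alt n) →
        ∑ z ∈ Z, (trace ((lz (avgRe fun l => F.ρ i (z l : Perm (Fin n)))) ^ (2 * len n))).re ≤
          F.D i * ((Fintype.card (Alt n) : ℝ) ^ k * (3 / (n : ℝ) ^ 3)))
    (P : (Fin k → Alt n) → Prop)
    (hP1 : ∀ z, P z → Good F (tupW z) ⌊(n : ℝ) ^ (1 - δ / 2)⌋₊ ε)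
    (hP2 : ∀ z, P z → Good F (tupW z) 20 (1 / 2))
    (C : ℝ) (_hC0 : 0 ≤ C)
    (hC : (Nat.card {z : Fin k → Alt n // ¬ P z} : ℝ) ≤
        (Fintype.card (Alt n) : ℝ) ^ k * (C / n)) :
    (Nat.card {x : Fin (k + 1) → Alt n // ¬ SmallDiam x ((n : ℝ) ^ (1 + δ))} : ℝ) ≤
      (Fintype.card (Alt n) : ℝ) ^ (k + 1) * ((C + 2) / n) := by
  classical
  have hlast' := hlast
  obtain ⟨h1, h2, h3, h4, h5⟩ := hlast
  have hn0 : (0 : ℝ) < n := by
    have : 0 < n := by omega
    exact_mod_cast this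
  have hn1 : (1 : ℝ) ≤ n := by
    have : 1 ≤ n := by omega
    exact_mod_cast this
  have hN0 : (0 : ℝ) < Fintype.card (Alt n) := card_pos' (Alt n)
  -- the prime
  set S := ⌈(n : ℝ) ^ (1 - 3 / 4 * δ)⌉₊ with hS
  have hS1 : (n : ℝ) ^ (1 - 3 / 4 * δ) ≤ S := Nat.le_ceil _
  have hS2 : (S : ℝ) ≤ 2 * (n : ℝ) ^ (1 - 3 / 4 * δ) := by
    have := Nat.ceil_lt_add_one (show (0 : ℝ) ≤ (n : ℝ) ^ (1 - 3 / 4 * δ) by positivity)
    linarith
  have hS3 : 2 ≤ S := by
    have : (3 : ℝ) ≤ S := h5.trans hS1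
    have : 3 ≤ S := by exact_mod_cast this
    omega
  have hnS : n < S ^ 2 := by
    have h6 : (n : ℝ) ^ (3 / 2 : ℝ) ≤ (S : ℝ) ^ 2 := by
      have h7 : (n : ℝ) ^ (3 / 4 : ℝ) ≤ S :=
        (Real.rpow_le_rpow_of_exponent_le hn1 (by linarith)).trans hS1
      calc (n : ℝ) ^ (3 / 2 : ℝ) = ((n : ℝ) ^ (3 / 4 : ℝ)) ^ 2 := by
            rw [← Real.rpow_natCast, ← Real.rpow_mul hn0.le]; norm_num
        _ ≤ (S : ℝ) ^ 2 := by gcongr
    have h7 : (n : ℝ) < (n : ℝ) ^ (3 / 2 : ℝ) := by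
      conv_lhs => rw [← Real.rpow_one (n : ℝ)]
      apply Real.rpow_lt_rpow_of_exponent_lt
      · have : (64 : ℝ) ≤ n := by exact_mod_cast hn
        linarith
      · norm_num
    have h8 : (n : ℝ) < (S : ℝ) ^ 2 := lt_of_lt_of_le h7 h6
    exact_mod_cast h8
  obtain ⟨s, hsp, hsS, hsS2, hdvd⟩ := Pool.Agent.Helper95.A.P2_prime 2 S (2 * (n / 2)) hS3
    (by omega) (by omega)
  have hs1 : (n : ℝ) ^ (1 - 3 / 4 * δ) ≤ s := hS1.trans (by exact_mod_cast hsS)
  have hs2 : (s : ℝ) ≤ (n : ℝ) ^ (1 - δ / 2) := by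
    have h6 : (s : ℝ) ≤ 2 ^ 2 * S := by exact_mod_cast hsS2
    calc (s : ℝ) ≤ 2 ^ 2 * (2 * (n : ℝ) ^ (1 - 3 / 4 * δ)) := by
          refine h6.trans ?_
          gcongr
      _ = 8 * (n : ℝ) ^ (1 - 3 / 4 * δ) := by ring
      _ ≤ _ := h1
  have hs4 : 4 * s ≤ n := by
    have : 4 * (s : ℝ) ≤ n := by linarith
    exact_mod_cast this
  have hs3 : 3 ≤ s := by
    have : (3 : ℝ) ≤ s := h5.trans hs1
    exact_mod_cast this
  set M := 2 * (n / 2) - s with hM
  have hMs : M + s = 2 * (n / 2) := by omega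
  have hne : M ≠ s := by
    intro h
    apply hdvd
    rw [← hMs, h]
    exact ⟨2, by ring⟩
  have hcard := cls_card (n := n) (M := M) (s := s) (by omega) (by omega) (by omega) hne
    (by omega) (by omega) (by rw [hMs]; exact ⟨n / 2, by ring⟩)
  set E := cls n M s with hE
  have hEpos : 0 < E.card := by
    by_contra hc
    have h6 : E.card = 0 := by omega
    rw [h6, zero_mul] at hcard
    have : 0 < Fintype.card (Alt n) := Fintype.card_pos
    omega
  -- the exceptional pairs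
  set p := ⌊(n : ℝ) ^ (1 - δ / 2)⌋₊ with hp
  set Z : Finset (Fin k → Alt n) := Finset.univ.filter fun z => P z with hZ
  set B : Finset ((Fin k → Alt n) × Alt n) := Finset.univ.filter fun b => b.1 ∈ Z ∧
    ∀ l : List (Fin k × Bool), l.length ≤ len n → b.2 * evl b.1 l ∉ E with hB
  have hBcard : (B.card : ℝ) * E.card ≤ (Fintype.card (Alt n) : ℝ) ^ k * (3 / (n : ℝ) ^ 3) *
      (Fintype.card (Alt n) : ℝ) ^ 2 := by
    refine miss_count F hk Z (len n) _ (by positivity) (hβ Z fun z hz =>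
      hP2 z (Finset.mem_filter.1 hz).2) E (Finset.card_pos.1 hEpos) ?_ B (fun b hb =>
        (Finset.mem_filter.1 hb).2)
    intro σ g h hh hg
    rw [hE, mem_cls] at hg ⊢
    rw [hh, Perm.cycleType_conj]
    exact hg
  have hBcard2 : (B.card : ℝ) ≤ (Fintype.card (Alt n) : ℝ) ^ (k + 1) * (2 / n) := by
    have h6 : (E.card : ℝ) * (M * s) = 2 * Fintype.card (Alt n) := by exact_mod_cast hcard
    have hMs0 : (0 : ℝ) ≤ (M : ℝ) * s := by positivity
    have h7 : (B.card : ℝ) * (2 * Fintype.card (Alt n)) ≤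
        (Fintype.card (Alt n) : ℝ) ^ k * (3 / (n : ℝ) ^ 3) *
          (Fintype.card (Alt n) : ℝ) ^ 2 * (M * s) := by
      rw [← h6]
      calc (B.card : ℝ) * (E.card * (M * s)) = (B.card * E.card) * (M * s) := by ring
        _ ≤ _ := mul_le_mul_of_nonneg_right hBcard hMs0
    have h8 : (M : ℝ) * s ≤ n ^ 2 := by
      have h9 : (M : ℝ) ≤ n := by
        have : M ≤ n := by omega
        exact_mod_cast this
      have h10 : (s : ℝ) ≤ n := by
        have : s ≤ n := by omega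
        exact_mod_cast this
      calc (M : ℝ) * s ≤ n * n := by gcongr
        _ = n ^ 2 := by ring
    have h9 : (B.card : ℝ) * (2 * Fintype.card (Alt n)) ≤
        ((Fintype.card (Alt n) : ℝ) ^ (k + 1) * (2 / n)) * (2 * Fintype.card (Alt n)) := by
      refine h7.trans ?_
      calc (Fintype.card (Alt n) : ℝ) ^ k * (3 / (n : ℝ) ^ 3) *
          (Fintype.card (Alt n) : ℝ) ^ 2 * (M * s) ≤ (Fintype.card (Alt n) : ℝ) ^ k *
            (3 / (n : ℝ) ^ 3) * (Fintype.card (Alt n) : ℝ) ^ 2 * n ^ 2 := by gcongr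
        _ = (Fintype.card (Alt n) : ℝ) ^ (k + 2) * (3 / n) := by
            rw [pow_add]
            field_simp
        _ ≤ (Fintype.card (Alt n) : ℝ) ^ (k + 2) * (4 / n) := by gcongr; norm_num
        _ = _ := by ring
    exact le_of_mul_le_mul_right h9 (by positivity)
  -- the union bound
  set bad := {x : Fin (k + 1) → Alt n // ¬ SmallDiam x ((n : ℝ) ^ (1 + δ))} with hbad
  have hinj : Nat.card bad ≤
      Nat.card ({z : Fin k → Alt n // ¬ P z} × Alt n ⊕ B) := by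
    have hcase : ∀ x : bad, P (Fin.tail x.1) →
        ((Fin.tail x.1 : Fin k → Alt n), x.1 0) ∈ B := by
      intro x hx
      rw [hB, Finset.mem_filter]
      refine ⟨Finset.mem_univ _, Finset.mem_filter.2 ⟨Finset.mem_univ _, hx⟩, ?_⟩
      intro l hl hlE
      apply x.2
      have := smallDiam_of3 hδ0 hδ1 hε hε1 hk (by omega) hlast' hsp hs1 hs2 hdvd F
        (Fin.tail x.1) (x.1 0) (hP1 _ hx) l hl hlE
      rwa [Fin.cons_self_tail] at this
    refine Nat.card_le_card_of_injective (fun x : bad =>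
      if hx : P (Fin.tail x.1) then
        Sum.inr ⟨((Fin.tail x.1 : Fin k → Alt n), x.1 0), hcase x hx⟩
      else Sum.inl (⟨Fin.tail x.1, hx⟩, x.1 0)) ?_
    intro x y hxy
    have key : (Fin.tail x.1 : Fin k → Alt n) = Fin.tail y.1 ∧ x.1 0 = y.1 0 := by
      by_cases hx : P (Fin.tail x.1) <;>
      by_cases hy : P (Fin.tail y.1)
      · simp only [dif_pos hx, dif_pos hy] at hxy
        have := congrArg Subtype.val (Sum.inr.inj hxy)
        exact ⟨congrArg Prod.fst this, congrArg Prod.snd this⟩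
      · simp only [dif_pos hx, dif_neg hy] at hxy
        cases hxy
      · simp only [dif_neg hx, dif_pos hy] at hxy
        cases hxy
      · simp only [dif_neg hx, dif_neg hy] at hxy
        have := Sum.inl.inj hxy
        exact ⟨congrArg Subtype.val (congrArg Prod.fst this), congrArg Prod.snd this⟩
    apply Subtype.ext
    rw [← Fin.cons_self_tail x.1, ← Fin.cons_self_tail y.1, key.1, key.2]
  rw [Nat.card_sum, Nat.card_prod, Nat.card_eq_fintype_card (α := Alt n),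
    Nat.card_eq_fintype_card (α := B), Fintype.card_coe] at hinj
  have hinj' : (Nat.card bad : ℝ) ≤
      (Nat.card {z : Fin k → Alt n // ¬ P z} : ℝ) *
        Fintype.card (Alt n) + B.card := by exact_mod_cast hinj
  refine hinj'.trans ?_
  calc (Nat.card {z : Fin k → Alt n // ¬ P z} : ℝ) *
        Fintype.card (Alt n) + B.card ≤
        ((Fintype.card (Alt n) : ℝ) ^ k * (C / n)) * Fintype.card (Alt n) +
          (Fintype.card (Alt n) : ℝ) ^ (k + 1) * (2 / n) := by gcongr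
    _ = _ := by rw [pow_succ]; ring


/-- the main theorem on the diameter -/
theorem diam_main3 (δ : ℝ) (hδ : 0 < δ) : ∃ K : ℕ, ∀ k : ℕ, K ≤ k →
    Tendsto (fun n : ℕ => (Nat.card {x : Fin k → Alt n // SmallDiam x ((n : ℝ) ^ (1 + δ))} : ℝ) /
      Nat.card (Fin k → Alt n)) atTop (𝓝 1) := by
  set δ' := min δ (1 / 3) with hδ'
  have hδ'0 : 0 < δ' := lt_min hδ (by norm_num)
  have hδ'1 : δ' ≤ 1 / 3 := min_le_right _ _
  obtain ⟨ε, hε, hε1, K1, hK1⟩ := main_good (α := 1 - δ' / 2) (by linarith)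
  obtain ⟨K2, hK2⟩ := Pool.Agent.Helper6.H.main_good2 (1 / 4) (by norm_num) (by norm_num)
  refine ⟨max (max K1 K2) 8 + 1, fun k' hk' => ?_⟩
  obtain ⟨k, rfl⟩ : ∃ k, k' = k + 1 := ⟨k' - 1, by omega⟩
  have hkK : max K1 K2 ≤ k := le_trans (le_max_left (max K1 K2) 8) (by omega)
  have hk8 : 8 ≤ k := le_trans (le_max_right (max K1 K2) 8) (by omega)
  obtain ⟨C1, hC1, hev1⟩ := hK1 k ((le_max_left _ _).trans hkK)
  obtain ⟨C2, hC2, hev2⟩ := hK2 k ((le_max_right _ _).trans hkK)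
  set C := C1 + C2 with hCdef
  have hlim : Tendsto (fun n : ℕ => 1 - (C + 2) / n) atTop (𝓝 1) := by
    have h5 : Tendsto (fun n : ℕ => (C + 2) / (n : ℝ)) atTop (𝓝 0) :=
      tendsto_const_div_atTop_nhds_zero_nat _
    simpa using h5.const_sub 1
  have h20 : ∀ᶠ n : ℕ in atTop, (20 : ℝ) ≤ Real.exp (1 / 4 * Real.log n) :=
    tendsto_log_nat.eventually (ev_exp (by norm_num) 20)
  refine tendsto_of_tendsto_of_tendsto_of_le_of_le' hlim tendsto_const_nhds ?_ ?_
  · filter_upwards [hev1, hev2, h20, beta_bound k hk8, ev_last3 δ' hδ'0 hδ'1 hε,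
      eventually_ge_atTop 64] with n h1 h1' h20 h2 h3 hn64
    obtain ⟨F⟩ := exists_pw (Equiv.Perm (Fin n))
    have hn1 : (1 : ℝ) ≤ n := by
      have : 1 ≤ n := by omega
      exact_mod_cast this
    have hn0 : (0 : ℝ) < n := by linarith
    have hp20 : 20 ≤ ⌊(n : ℝ) ^ (1 / 4 : ℝ)⌋₊ := by
      refine Nat.le_floor ?_
      rw [Real.rpow_def_of_pos hn0, mul_comm]
      exact_mod_cast h20
    have h1 := h1 F
    have h1' := h1' F
    rw [lv_eq (by omega)] at h1
    have hPc : (Nat.card {z : Fin k → Alt n //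
        ¬ (Good F (tupW z) ⌊(n : ℝ) ^ (1 - δ' / 2)⌋₊ ε ∧
          Good F (tupW z) ⌊(n : ℝ) ^ (1 / 4 : ℝ)⌋₊ (1 / 2))} : ℝ) ≤
        (Fintype.card (Alt n) : ℝ) ^ k * (C / n) := by
      classical
      have h6 : Nat.card {z : Fin k → Alt n //
          ¬ (Good F (tupW z) ⌊(n : ℝ) ^ (1 - δ' / 2)⌋₊ ε ∧
            Good F (tupW z) ⌊(n : ℝ) ^ (1 / 4 : ℝ)⌋₊ (1 / 2))} ≤
          Nat.card {z : Fin k → Alt n // ¬ Good F (tupW z) ⌊(n : ℝ) ^ (1 - δ' / 2)⌋₊ ε} +
          Nat.card {z : Fin k → Alt n // ¬ Good F (tupW z) ⌊(n : ℝ) ^ (1 / 4 : ℝ)⌋₊ (1 / 2)} := by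
        simp only [Nat.card_eq_fintype_card, Fintype.card_subtype]
        refine le_trans (Finset.card_le_card ?_) (Finset.card_union_le _ _)
        intro z hz
        have h7 := (Finset.mem_filter.1 hz).2
        rw [Finset.mem_union, Finset.mem_filter, Finset.mem_filter]
        by_cases h8 : Good F (tupW z) ⌊(n : ℝ) ^ (1 - δ' / 2)⌋₊ ε
        · exact Or.inr ⟨Finset.mem_univ _, fun h9 => h7 ⟨h8, h9⟩⟩
        · exact Or.inl ⟨Finset.mem_univ _, h8⟩
      calc (Nat.card {z : Fin k → Alt n //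
          ¬ (Good F (tupW z) ⌊(n : ℝ) ^ (1 - δ' / 2)⌋₊ ε ∧
            Good F (tupW z) ⌊(n : ℝ) ^ (1 / 4 : ℝ)⌋₊ (1 / 2))} : ℝ) ≤
          (Nat.card {z : Fin k → Alt n // ¬ Good F (tupW z) ⌊(n : ℝ) ^ (1 - δ' / 2)⌋₊ ε} : ℝ) +
          Nat.card {z : Fin k → Alt n // ¬ Good F (tupW z) ⌊(n : ℝ) ^ (1 / 4 : ℝ)⌋₊ (1 / 2)} := by
            exact_mod_cast h6
        _ ≤ (Fintype.card (Alt n) : ℝ) ^ k * (C1 / n) +
            (Fintype.card (Alt n) : ℝ) ^ k * (C2 / n) := add_le_add h1 h1'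
        _ = _ := by rw [hCdef]; ring
    have h4 := card_bound3 δ' ε hδ'0 hδ'1 hε hε1 (by omega) hn64 h3 F (h2 F)
      (fun z => Good F (tupW z) ⌊(n : ℝ) ^ (1 - δ' / 2)⌋₊ ε ∧
          Good F (tupW z) ⌊(n : ℝ) ^ (1 / 4 : ℝ)⌋₊ (1 / 2)) (fun z hz => hz.1)
      (fun z hz => hz.2.mono hp20) C (by positivity) hPc
    have hcards : (Nat.card (Fin (k + 1) → Alt n) : ℝ) = (Fintype.card (Alt n) : ℝ) ^ (k + 1) := by
      rw [Nat.card_eq_fintype_card, Fintype.card_fun, Fintype.card_fin]; push_cast; rfl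
    have hN : (0 : ℝ) < (Fintype.card (Alt n) : ℝ) ^ (k + 1) := by
      have : (0 : ℝ) < Fintype.card (Alt n) := card_pos' (Alt n)
      positivity
    rw [hcards, le_div_iff₀ hN]
    classical
    have hsplit : (Nat.card (Fin (k + 1) → Alt n) : ℝ) ≤
        (Nat.card {x : Fin (k + 1) → Alt n // SmallDiam x ((n : ℝ) ^ (1 + δ))} : ℝ) +
        Nat.card {x : Fin (k + 1) → Alt n // ¬ SmallDiam x ((n : ℝ) ^ (1 + δ'))} := by
      have h5 : Nat.card (Fin (k + 1) → Alt n) =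
          Nat.card {x : Fin (k + 1) → Alt n // SmallDiam x ((n : ℝ) ^ (1 + δ'))} +
          Nat.card {x : Fin (k + 1) → Alt n // ¬ SmallDiam x ((n : ℝ) ^ (1 + δ'))} := by
        rw [Nat.card_eq_fintype_card, Nat.card_eq_fintype_card, Nat.card_eq_fintype_card,
          Fintype.card_subtype_compl]
        have := Fintype.card_subtype_le (fun x : Fin (k + 1) → Alt n =>
          SmallDiam x ((n : ℝ) ^ (1 + δ')))
        omega
      have h6 : Nat.card {x : Fin (k + 1) → Alt n // SmallDiam x ((n : ℝ) ^ (1 + δ'))} ≤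
          Nat.card {x : Fin (k + 1) → Alt n // SmallDiam x ((n : ℝ) ^ (1 + δ))} :=
        Nat.card_le_card_of_injective (fun x => ⟨x.1, x.2.mono
          (Real.rpow_le_rpow_of_exponent_le hn1 (by
            have := min_le_left δ (1 / 3)
            linarith))⟩) (by
          intro x y hxy
          have := congrArg Subtype.val hxy
          exact Subtype.ext this)
      rw [h5]
      push_cast
      have h7 : (Nat.card {x : Fin (k + 1) → Alt n // SmallDiam x ((n : ℝ) ^ (1 + δ'))} : ℝ) ≤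
          Nat.card {x : Fin (k + 1) → Alt n // SmallDiam x ((n : ℝ) ^ (1 + δ))} := by
        exact_mod_cast h6
      linarith
    rw [hcards] at hsplit
    nlinarith
  · filter_upwards [eventually_ge_atTop 1] with n hn
    have hcards : (0 : ℝ) < Nat.card (Fin (k + 1) → Alt n) := by
      have : 0 < Nat.card (Fin (k + 1) → Alt n) := Nat.card_pos
      exact_mod_cast this
    rw [div_le_one hcards]
    have := Nat.card_le_card_of_injective
      (fun x : {x : Fin (k + 1) → Alt n // SmallDiam x ((n : ℝ) ^ (1 + δ))} => x.1)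
      Subtype.val_injective
    exact_mod_cast this

end Pool.Agent.Helper6.W
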