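import Mathlib
import Pool.Agent.Helper15.An.Num

/-! Numerical estimates for one stage. -/

set_option linter.unusedSectionVars false

namespace Pool.Agent.Helper6.W

/-- relations between the exponents -/
structure Exps (α α' δ : ℝ) : Prop where
  hα : 0 < α
  hαα' : α ≤ α'
  hδ : 0 < δ
  c1 : 3 * α' - 2 * α + 2 * δ ≤ 1
  c2 : α' - α + 2 * δ ≤ 1 / 2
  c3 : α' + 2 * δ ≤ 1

/-- size conditions on `n`; here `L = log n` -/
structure BigW (α δ : ℝ) (L : ℝ) : Prop where
  hL : 1 ≤ L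
  h1 : 4096 ≤ Real.exp (δ / 32 * L)
  h2 : 256 / δ + 2 ≤ Real.exp (α * L)

/-- all the parameters on the level `r` -/
structure Ctx (α α' δ L : ℝ) (n p F r q : ℕ) : Prop where
  ex : Exps α α' δ
  big : BigW α δ L
  hn : Real.exp L = n
  hp : (p : ℝ) ≤ Real.exp (α * L)
  hp2 : Real.exp (α * L) ≤ 2 * p
  hF : (F : ℝ) ≤ Real.exp ((1 - δ) * L)
  hF2 : Real.exp ((1 - δ) * L) ≤ 2 * F
  hpr : p < r
  hr : (r : ℝ) ≤ Real.exp (α' * L)
  hq1 : r ≤ q * p
  hq2 : q * p ≤ 2 * r
  hq3 : q ≤ r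

variable {α α' δ L : ℝ} {n p F r q : ℕ}

theorem BigW.e1 (ex : Exps α α' δ) (b : BigW α δ L) : 4096 ≤ Real.exp (δ * L) := by
  refine b.h1.trans (Real.exp_le_exp.2 ?_)
  have h1 := ex.hδ
  have h2 := b.hL
  nlinarith

theorem BigW.e2 (ex : Exps α α' δ) (b : BigW α δ L) : 4096 ≤ Real.exp (δ / 2 * L) := by
  refine b.h1.trans (Real.exp_le_exp.2 ?_)
  have h1 := ex.hδ
  have h2 := b.hL
  nlinarith

namespace Ctx

theorem hL0 (c : Ctx α α' δ L n p F r q) : 0 < L := lt_of_lt_of_le one_pos c.big.hL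

theorem hn0 (c : Ctx α α' δ L n p F r q) : (0 : ℝ) < n := by
  rw [← c.hn]; exact Real.exp_pos _

theorem hr0 (c : Ctx α α' δ L n p F r q) : 0 < r := lt_of_le_of_lt (Nat.zero_le p) c.hpr

theorem hp0 (c : Ctx α α' δ L n p F r q) : (0 : ℝ) < p := by
  have h1 := c.hp2
  have h2 := Real.exp_pos (α * L)
  linarith

theorem hF0 (c : Ctx α α' δ L n p F r q) : (0 : ℝ) < F := by
  have h1 := c.hF2
  have h2 := Real.exp_pos ((1 - δ) * L)
  linarith

/-- the number of blocks is small -/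
theorem q_le (c : Ctx α α' δ L n p F r q) : (q : ℝ) ≤ 4 * Real.exp ((α' - α) * L) := by
  have h1 : (q : ℝ) * p ≤ 2 * r := by exact_mod_cast c.hq2
  have h2 : (q : ℝ) * Real.exp (α * L) ≤ q * (2 * p) :=
    mul_le_mul_of_nonneg_left c.hp2 (Nat.cast_nonneg _)
  have h3 : (q : ℝ) * Real.exp (α * L) ≤ 4 * Real.exp (α' * L) := by
    have := c.hr
    linarith
  have h4 : Real.exp (α' * L) = Real.exp ((α' - α) * L) * Real.exp (α * L) := by
    rw [← Real.exp_add]; congr 1; ring
  rw [h4, ← mul_assoc] at h3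
  exact le_of_mul_le_mul_right h3 (Real.exp_pos _)

theorem exp_le {c : Ctx α α' δ L n p F r q} {a b : ℝ} (h : a ≤ b) :
    Real.exp (a * L) ≤ Real.exp (b * L) :=
  Real.exp_le_exp.2 (mul_le_mul_of_nonneg_right h c.hL0.le)

/-- absorb a constant -/
theorem absorb (c : Ctx α α' δ L n p F r q) {a b C : ℝ} (h : a + δ ≤ b) (hC : C ≤ 4096) :
    C * Real.exp (a * L) ≤ Real.exp (b * L) := by
  have h1 := BigW.e1 c.ex c.big
  calc C * Real.exp (a * L) ≤ Real.exp (δ * L) * Real.exp (a * L) := by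
        refine mul_le_mul_of_nonneg_right ?_ (Real.exp_pos _).le
        linarith
    _ = Real.exp ((a + δ) * L) := by rw [← Real.exp_add]; congr 1; ring
    _ ≤ Real.exp (b * L) := exp_le (c := c) h

theorem cond1 (c : Ctx α α' δ L n p F r q) : 2 * p ≤ n := by
  have h : (2 * p : ℝ) ≤ n := by
    rw [← c.hn]
    have h1 := c.absorb (a := α) (b := 1) (C := 2)
      (by have := c.ex.c3; have := c.ex.hαα'; have := c.ex.hδ; linarith) (by norm_num)
    have h2 := c.hp
    rw [one_mul] at h1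
    linarith
  exact_mod_cast h

theorem cond2 (c : Ctx α α' δ L n p F r q) : 4 * q ≤ n := by
  have h : (4 * q : ℝ) ≤ n := by
    rw [← c.hn]
    have h1 := c.absorb (a := α' - α) (b := 1) (C := 16)
      (by have := c.ex.c2; have := c.ex.hδ; linarith) (by norm_num)
    have h2 := c.q_le
    rw [one_mul] at h1
    linarith
  exact_mod_cast h

theorem cond3 (c : Ctx α α' δ L n p F r q) : 0 < F := by
  have := c.hF0
  exact_mod_cast this

theorem cond4 (c : Ctx α α' δ L n p F r q) : 4 * p ≤ F := by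
  have h : (4 * p : ℝ) ≤ F := by
    have h1 := c.absorb (a := α) (b := 1 - δ) (C := 8)
      (by have := c.ex.c3; have := c.ex.hαα'; linarith) (by norm_num)
    have h2 := c.hp
    have h3 := c.hF2
    linarith
  exact_mod_cast h

theorem cond5 (c : Ctx α α' δ L n p F r q) : 16 * (r * q ^ 2) ≤ F := by
  have h : (16 * (r * q ^ 2) : ℝ) ≤ F := by
    have h1 := c.absorb (a := 3 * α' - 2 * α) (b := 1 - δ) (C := 512)
      (by have := c.ex.c1; linarith) (by norm_num)
    have h2 : (q : ℝ) ^ 2 ≤ 16 * Real.exp (2 * (α' - α) * L) := by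
      calc (q : ℝ) ^ 2 ≤ (4 * Real.exp ((α' - α) * L)) ^ 2 :=
            pow_le_pow_left₀ (Nat.cast_nonneg _) c.q_le 2
        _ = 16 * Real.exp (2 * (α' - α) * L) := by
            rw [mul_pow, ← Real.exp_nat_mul]
            norm_num
            ring
    have h3 : (r : ℝ) * q ^ 2 ≤ 16 * Real.exp ((3 * α' - 2 * α) * L) := by
      calc (r : ℝ) * q ^ 2 ≤ Real.exp (α' * L) * (16 * Real.exp (2 * (α' - α) * L)) :=
            mul_le_mul c.hr h2 (by positivity) (Real.exp_pos _).le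
        _ = 16 * Real.exp ((3 * α' - 2 * α) * L) := by
            rw [mul_left_comm, ← Real.exp_add]
            congr 2
            ring
    have h4 := c.hF2
    linarith
  exact_mod_cast h

theorem cond6 (c : Ctx α α' δ L n p F r q) : 4 * (r * q) ≤ n := by
  have h : (4 * (r * q) : ℝ) ≤ n := by
    rw [← c.hn]
    have h1 := c.absorb (a := 2 * α' - α) (b := 1) (C := 16)
      (by have := c.ex.c1; have := c.ex.hαα'; have := c.ex.hδ; linarith) (by norm_num)
    rw [one_mul] at h1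
    have h3 : (r : ℝ) * q ≤ 4 * Real.exp ((2 * α' - α) * L) := by
      calc (r : ℝ) * q ≤ Real.exp (α' * L) * (4 * Real.exp ((α' - α) * L)) :=
            mul_le_mul c.hr c.q_le (Nat.cast_nonneg _) (Real.exp_pos _).le
        _ = 4 * Real.exp ((2 * α' - α) * L) := by
            rw [mul_left_comm, ← Real.exp_add]
            congr 2
            ring
    linarith
  exact_mod_cast h

theorem cond7 (c : Ctx α α' δ L n p F r q) : 4 * r ≤ n := by
  have h : (4 * r : ℝ) ≤ n := by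
    rw [← c.hn]
    have h1 := c.absorb (a := α') (b := 1) (C := 4)
      (by have := c.ex.c3; have := c.ex.hδ; linarith) (by norm_num)
    rw [one_mul] at h1
    have := c.hr
    linarith
  exact_mod_cast h

theorem bound1 (c : Ctx α α' δ L n p F r q) :
    (16 * q / F : ℝ) ^ r ≤ Real.exp (-(1 / 2) * L) ^ r := by
  have hF0 := c.hF0
  refine pow_le_pow_left₀ (by positivity) ?_ r
  rw [div_le_iff₀ hF0]
  have h1 := c.absorb (a := α' - α) (b := 1 / 2 - δ) (C := 128)
    (by have := c.ex.c2; linarith) (by norm_num)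
  have h2 := c.q_le
  have h3 : Real.exp (-(1 / 2) * L) * Real.exp ((1 - δ) * L) = Real.exp ((1 / 2 - δ) * L) := by
    rw [← Real.exp_add]; congr 1; ring
  have h4 := mul_le_mul_of_nonneg_left c.hF2 (Real.exp_pos (-(1 / 2) * L)).le
  linarith

theorem bound2 (c : Ctx α α' δ L n p F r q) :
    (4 * n / F : ℝ) ^ p * (2 ^ (2 * q) * 2 ^ (2 * q * p) * (4 * q / n : ℝ) ^ (p * q)) ≤
      Real.exp (-(1 / 2) * L) ^ r := by
  have hF0 := c.hF0
  have hn0 := c.hn0
  have hL0 := c.hL0
  have h1 : (4 * n / F : ℝ) ≤ 8 * Real.exp (δ * L) := by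
    rw [div_le_iff₀ hF0]
    have h2 : Real.exp (δ * L) * Real.exp ((1 - δ) * L) = n := by
      rw [← c.hn, ← Real.exp_add]; congr 1; ring
    have h3 := mul_le_mul_of_nonneg_left c.hF2 (Real.exp_pos (δ * L)).le
    linarith
  have h2 : (1 : ℝ) ≤ 8 * Real.exp (δ * L) := by
    have := BigW.e1 c.ex c.big
    linarith
  have h3 : (4 * n / F : ℝ) ^ p ≤ (8 * Real.exp (δ * L)) ^ r :=
    (pow_le_pow_left₀ (by positivity) h1 p).trans (pow_le_pow_right₀ h2 c.hpr.le)
  have h4 : (2 : ℝ) ^ (2 * q) ≤ 4 ^ r := by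
    rw [pow_mul, show (2 : ℝ) ^ 2 = 4 by norm_num]
    exact pow_le_pow_right₀ (by norm_num) c.hq3
  have hx : (16 * q / n : ℝ) ≤ 64 * Real.exp ((α' - α - 1) * L) := by
    rw [div_le_iff₀ hn0]
    have h5 : Real.exp ((α' - α - 1) * L) * n = Real.exp ((α' - α) * L) := by
      rw [← c.hn, ← Real.exp_add]; congr 1; ring
    have h6 := c.q_le
    rw [mul_assoc, h5]
    linarith
  have hx1 : (16 * q / n : ℝ) ≤ 1 := by
    refine hx.trans ?_
    have := c.absorb (a := α' - α - 1) (b := 0) (C := 64)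
      (by have := c.ex.c2; have := c.ex.hδ; linarith) (by norm_num)
    rwa [zero_mul, Real.exp_zero] at this
  have hx0 : (0 : ℝ) ≤ 16 * q / n := by positivity
  have h5 : (2 : ℝ) ^ (2 * q * p) * (4 * q / n : ℝ) ^ (p * q) ≤
      (64 * Real.exp ((α' - α - 1) * L)) ^ r := by
    have h6 : (2 : ℝ) ^ (2 * q * p) * (4 * q / n : ℝ) ^ (p * q) = (16 * q / n : ℝ) ^ (p * q) := by
      rw [show 2 * q * p = 2 * (p * q) by ring, pow_mul, show (2 : ℝ) ^ 2 = 4 by norm_num,
        ← mul_pow]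
      congr 1
      ring
    rw [h6]
    calc (16 * q / n : ℝ) ^ (p * q) ≤ (16 * q / n : ℝ) ^ r := by
          apply pow_le_pow_of_le_one hx0 hx1
          have := c.hq1
          rw [mul_comm] at this
          exact this
      _ ≤ _ := pow_le_pow_left₀ hx0 hx r
  calc (4 * n / F : ℝ) ^ p * (2 ^ (2 * q) * 2 ^ (2 * q * p) * (4 * q / n : ℝ) ^ (p * q))
      ≤ (8 * Real.exp (δ * L)) ^ r * (4 ^ r * (64 * Real.exp ((α' - α - 1) * L)) ^ r) := by
        rw [mul_assoc (2 ^ (2 * q) : ℝ)]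
        refine mul_le_mul h3 (mul_le_mul h4 h5 (by positivity) (by positivity)) (by positivity)
          (by positivity)
    _ = (2048 * Real.exp ((α' - α - 1 + δ) * L)) ^ r := by
        rw [← mul_pow, ← mul_pow]
        congr 1
        rw [show (α' - α - 1 + δ) * L = δ * L + (α' - α - 1) * L by ring, Real.exp_add]
        ring
    _ ≤ Real.exp (-(1 / 2) * L) ^ r := by
        refine pow_le_pow_left₀ (by positivity) ?_ r
        exact c.absorb (by have := c.ex.c2; linarith) (by norm_num)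

theorem bound3 (c : Ctx α α' δ L n p F r q) :
    (2 * F / n + 14 * Real.sqrt (r / n) : ℝ) ≤ Real.exp (-(δ / 2) * L) := by
  have hn0 := c.hn0
  have h1 : (2 * F / n : ℝ) ≤ 2 * Real.exp (-δ * L) := by
    rw [div_le_iff₀ hn0]
    have h2 : Real.exp (-δ * L) * n = Real.exp ((1 - δ) * L) := by
      rw [← c.hn, ← Real.exp_add]; congr 1; ring
    rw [mul_assoc, h2]
    linarith [c.hF]
  have h2 : Real.sqrt (r / n) ≤ Real.exp (-δ * L) := by
    apply Real.sqrt_le_iff.2
    refine ⟨(Real.exp_pos _).le, ?_⟩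
    rw [div_le_iff₀ hn0, ← c.hn, ← Real.exp_nat_mul, ← Real.exp_add]
    refine c.hr.trans (Real.exp_le_exp.2 ?_)
    have h3 := c.ex.c3
    have h4 := c.hL0
    push_cast
    nlinarith
  have h3 : 16 * Real.exp (-δ * L) ≤ Real.exp (-(δ / 2) * L) := by
    have h4 := BigW.e2 c.ex c.big
    have h5 : Real.exp (-(δ / 2) * L) = Real.exp (δ / 2 * L) * Real.exp (-δ * L) := by
      rw [← Real.exp_add]; congr 1; ring
    rw [h5]
    refine mul_le_mul_of_nonneg_right ?_ (Real.exp_pos _).le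
    linarith
  linarith

theorem bound4 (c : Ctx α α' δ L n p F r q) :
    2 * (Real.exp (-(1 / 2) * L) ^ r + Real.exp (-(1 / 2) * L) ^ r) +
      Real.exp (-(δ / 2) * L) ^ r ≤ 5 * Real.exp (-(δ / 2) * L) ^ r := by
  have h1 : Real.exp (-(1 / 2) * L) ^ r ≤ Real.exp (-(δ / 2) * L) ^ r := by
    refine pow_le_pow_left₀ (Real.exp_pos _).le ?_ r
    refine exp_le (c := c) ?_
    have := c.ex.c2
    have := c.ex.hαα'
    linarith
  linarith

/-- lower bound of the normalising constant -/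
theorem bound5 (c : Ctx α α' δ L n p F r q) {ε : ℝ} (hε : 0 < ε) (hε1 : ε ≤ 1) :
    Real.exp (-(δ / 8) * L) ^ r ≤
      ((1 - ε * δ / 256 / 2) ^ (4 * ⌈p * L / ε⌉₊) / 4) ^ q := by
  have hδ := c.ex.hδ
  have hL := c.big.hL
  have hL0 := c.hL0
  have hp0 := c.hp0
  have hδ1 : δ ≤ 1 := by
    have := c.ex.c2
    have := c.ex.hαα'
    linarith
  set η := ε * δ / 256 with hη
  have hη0 : 0 < η := by positivity
  have hη1 : η ≤ 1 := by
    rw [hη]
    have : ε * δ ≤ 1 := by nlinarith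
    linarith
  set l := ⌈p * L / ε⌉₊ with hl
  have hl1 : (l : ℝ) ≤ p * L / ε + 1 := (Nat.ceil_lt_add_one (by positivity)).le
  have h1 : Real.exp (-η) ≤ 1 - η / 2 := Pool.Agent.Helper15.An.exp_neg_le_half hη0.le hη1
  have h4e : Real.exp (-2) ≤ 1 / 4 := by
    rw [Real.exp_neg, one_div]
    apply inv_anti₀ (by norm_num)
    have h2 : Real.exp 2 = Real.exp 1 ^ 2 := by
      rw [← Real.exp_nat_mul]; norm_num
    rw [h2]
    have := Real.exp_one_gt_d9
    nlinarith
  have h2 : Real.exp (-(η * (4 * l) + 2)) ≤ (1 - η / 2) ^ (4 * l) / 4 := by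
    have h3 : Real.exp (-(η * (4 * l) + 2)) = Real.exp (-η) ^ (4 * l) * Real.exp (-2) := by
      rw [← Real.exp_nat_mul, ← Real.exp_add]
      congr 1
      push_cast
      ring
    rw [h3, div_eq_mul_one_div]
    exact mul_le_mul (pow_le_pow_left₀ (Real.exp_pos _).le h1 _) h4e (Real.exp_pos _).le
      (pow_nonneg (by linarith) _)
  refine le_trans ?_ (pow_le_pow_left₀ (Real.exp_pos _).le h2 q)
  rw [← Real.exp_nat_mul, ← Real.exp_nat_mul]
  apply Real.exp_le_exp.2
  -- it remains to compare the exponents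
  have hq2 : (q : ℝ) * p ≤ 2 * r := by exact_mod_cast c.hq2
  have hq3 : (q : ℝ) ≤ r := by exact_mod_cast c.hq3
  have hr0 : (0 : ℝ) < r := by exact_mod_cast c.hr0
  have hq0 : (0 : ℝ) ≤ q := Nat.cast_nonneg _
  have e1 : (q : ℝ) * (η * (4 * l)) ≤ 12 / 256 * δ * (r * L) := by
    have e2 : η * l ≤ δ / 256 * (p * L + ε) := by
      calc η * l ≤ η * (p * L / ε + 1) := mul_le_mul_of_nonneg_left hl1 hη0.le
        _ = δ / 256 * (p * L + ε) := by rw [hη]; field_simp
    have e3 : (q : ℝ) * (p * L + ε) ≤ 3 * (r * L) := by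
      have e4 : (q : ℝ) * p * L ≤ 2 * r * L := mul_le_mul_of_nonneg_right hq2 hL0.le
      have e5 : (q : ℝ) * ε ≤ r * L := mul_le_mul hq3 (hε1.trans hL) hε.le hr0.le
      linarith
    calc (q : ℝ) * (η * (4 * l)) = 4 * (q * (η * l)) := by ring
      _ ≤ 4 * (q * (δ / 256 * (p * L + ε))) := by gcongr
      _ = 4 * (δ / 256) * (q * (p * L + ε)) := by ring
      _ ≤ 4 * (δ / 256) * (3 * (r * L)) := by gcongr
      _ = 12 / 256 * δ * (r * L) := by ring
  have e6 : (q : ℝ) * 2 ≤ 8 / 256 * δ * (r * L) := by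
    have e7 : 128 / δ ≤ p := by
      have h3 := c.big.h2
      have h4 := c.hp2
      have h5 : 256 / δ = 2 * (128 / δ) := by ring
      linarith
    rw [div_le_iff₀ hδ] at e7
    have e8 : (q : ℝ) * 128 ≤ q * (p * δ) := mul_le_mul_of_nonneg_left e7 hq0
    have e9 : (q : ℝ) * p * δ ≤ 2 * r * δ := mul_le_mul_of_nonneg_right hq2 hδ.le
    have e10 : (r : ℝ) * 1 ≤ r * L := mul_le_mul_of_nonneg_left hL hr0.le
    have e11 : (r : ℝ) * δ ≤ r * L * δ := by
      have := mul_le_mul_of_nonneg_right e10 hδ.le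
      linarith
    linarith
  have e12 : 0 ≤ δ * (r * L) := by positivity
  have e13 : (r : ℝ) * (-(δ / 8) * L) = -(32 / 256 * δ * (r * L)) := by ring
  have e14 : (q : ℝ) * (-(η * (4 * l) + 2)) = -(q * (η * (4 * l)) + q * 2) := by ring
  rw [e13, e14]
  linarith

/-- the walk is long enough -/
theorem bound6 (hn : Real.exp L = n) (_hL : 0 < L) {ε : ℝ} (hε : 0 < ε)
    (hε1 : ε ≤ 1) : (1 - ε / 2) ^ (2 * ⌈p * L / ε⌉₊) ≤ 1 / (n.descFactorial p : ℝ) ∨
      n.descFactorial p = 0 := by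
  by_cases h0 : n.descFactorial p = 0
  · exact Or.inr h0
  refine Or.inl ?_
  have hd : (0 : ℝ) < n.descFactorial p := by
    have : 0 < n.descFactorial p := Nat.pos_of_ne_zero h0
    exact_mod_cast this
  have hn0 : (0 : ℝ) < n := by rw [← hn]; exact Real.exp_pos _
  set l := ⌈p * L / ε⌉₊ with hl
  have hl1 : p * L / ε ≤ (l : ℝ) := Nat.le_ceil _
  rw [div_le_iff₀ hε] at hl1
  have h1 : 1 - ε / 2 ≤ Real.exp (-(ε / 2)) := by
    have := Real.add_one_le_exp (-(ε / 2))
    linarith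
  have h2 : (1 - ε / 2) ^ (2 * l) ≤ Real.exp (-(p * L)) := by
    refine (pow_le_pow_left₀ (by linarith) h1 _).trans ?_
    rw [← Real.exp_nat_mul]
    apply Real.exp_le_exp.2
    push_cast
    linarith
  refine h2.trans ?_
  rw [Real.exp_neg, one_div]
  apply inv_anti₀ hd
  rw [Real.exp_nat_mul, hn]
  exact_mod_cast Nat.descFactorial_le_pow n p

/-- the contribution of a level in the `y`-phase -/
theorem bound7 (c : Ctx α α' δ L n p F r q) {ε : ℝ} (hε : 0 < ε) (hε1 : ε ≤ 1) {B : ℕ}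
    (hB : 32 ≤ δ * B) {β : ℝ} (hβ0 : 0 ≤ β) (hβ : β ≤ 5 * Real.exp (-(δ / 2) * L) ^ r) :
    (β / (Real.exp (-(δ / 8) * L) ^ r * ((1 - ε * δ / 256 / 2) ^ (4 * ⌈p * L / ε⌉₊) / 4) ^ q)) ^
      B * (2 * (n : ℝ) ^ r) ≤ 2 * ((n : ℝ) ^ 2)⁻¹ := by
  have hδ := c.ex.hδ
  have hL0 := c.hL0
  have hr0 : (0 : ℝ) < r := by exact_mod_cast c.hr0
  have hr1 : (1 : ℝ) ≤ r := by exact_mod_cast c.hr0
  have h5 := c.bound5 hε hε1
  set C := ((1 - ε * δ / 256 / 2) ^ (4 * ⌈p * L / ε⌉₊) / 4) ^ q with hC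
  set t := Real.exp (-(δ / 8) * L) ^ r with ht
  have ht0 : 0 < t := pow_pos (Real.exp_pos _) _
  have hC0 : 0 < C := lt_of_lt_of_le ht0 h5
  have h1 : β / (t * C) ≤ Real.exp (-(δ / 8) * L) ^ r := by
    rw [div_le_iff₀ (by positivity)]
    calc β ≤ 5 * Real.exp (-(δ / 2) * L) ^ r := hβ
      _ ≤ t * (t * t) := by
          have h2 : Real.exp (-(δ / 2) * L) ^ r = t * (t * t) * Real.exp (-(δ / 8) * L) ^ r := by
            rw [ht, ← mul_pow, ← mul_pow, ← mul_pow, ← Real.exp_add, ← Real.exp_add,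
              ← Real.exp_add]
            congr 2
            ring
          rw [h2]
          have h3 : 5 * Real.exp (-(δ / 8) * L) ^ r ≤ 1 := by
            have h4 : Real.exp (-(δ / 8) * L) ^ r ≤ 1 / 5 := by
              have h6 : Real.exp (-(δ / 8) * L) ^ r ≤ Real.exp (-(δ / 8) * L) ^ 1 := by
                refine pow_le_pow_of_le_one (Real.exp_pos _).le ?_ c.hr0
                rw [Real.exp_le_one_iff]
                nlinarith
              have h7 : Real.exp (-(δ / 8) * L) ≤ 1 / 5 := by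
                rw [neg_mul, Real.exp_neg, one_div]
                apply inv_anti₀ (by norm_num)
                have h8 : Real.exp (δ / 32 * L) ≤ Real.exp (δ / 8 * L) := by
                  apply Real.exp_le_exp.2
                  nlinarith
                have := c.big.h1
                linarith
              rw [pow_one] at h6
              linarith
            linarith
          have h9 : 0 ≤ t * (t * t) := by positivity
          nlinarith
      _ ≤ t * (t * C) := by gcongr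
  have h0 : 0 ≤ β / (t * C) := by positivity
  have h2 : (β / (t * C)) ^ B ≤ Real.exp (-(4 * r * L)) := by
    refine (pow_le_pow_left₀ h0 h1 B).trans ?_
    rw [← pow_mul, ← Real.exp_nat_mul]
    apply Real.exp_le_exp.2
    push_cast
    have h3 : 4 * (r * L) ≤ δ * B / 8 * (r * L) := by
      refine mul_le_mul_of_nonneg_right ?_ (by positivity)
      linarith
    nlinarith
  have hn0 := c.hn0
  have h3 : (n : ℝ) ^ r = Real.exp (r * L) := by
    rw [Real.exp_nat_mul, c.hn]
  have h4 : ((n : ℝ) ^ 2)⁻¹ = Real.exp (-(2 * L)) := by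
    rw [Real.exp_neg, ← c.hn, ← Real.exp_nat_mul]
    push_cast
    rfl
  rw [h3, h4]
  calc (β / (t * C)) ^ B * (2 * Real.exp (r * L)) ≤
      Real.exp (-(4 * r * L)) * (2 * Real.exp (r * L)) :=
        mul_le_mul_of_nonneg_right h2 (by positivity)
    _ = 2 * Real.exp (-(4 * r * L) + r * L) := by rw [Real.exp_add]; ring
    _ ≤ 2 * Real.exp (-(2 * L)) := by
        refine mul_le_mul_of_nonneg_left (Real.exp_le_exp.2 ?_) (by norm_num)
        nlinarith

/-- the contribution of a level in the `x`-phase -/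
theorem bound8 (c : Ctx α α' δ L n p F r q) {m : ℕ} (hm : 128 ≤ δ * m) :
    (3 * Real.sqrt (Real.exp (-(δ / 8) * L) ^ r)) ^ m * (2 * (n : ℝ) ^ r) ≤
      2 * ((n : ℝ) ^ 2)⁻¹ := by
  have hδ := c.ex.hδ
  have hL0 := c.hL0
  have hr0 : (0 : ℝ) < r := by exact_mod_cast c.hr0
  have hr1 : (1 : ℝ) ≤ r := by exact_mod_cast c.hr0
  have h1 : Real.sqrt (Real.exp (-(δ / 8) * L) ^ r) = Real.exp (-(δ / 16) * L) ^ r := by
    have h0 : Real.exp (-(δ / 8) * L) = Real.exp (-(δ / 16) * L) ^ 2 := by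
      rw [← Real.exp_nat_mul]
      congr 1
      push_cast
      ring
    have h00 : Real.exp (-(δ / 8) * L) ^ r = (Real.exp (-(δ / 16) * L) ^ r) ^ 2 := by
      rw [h0, ← pow_mul, ← pow_mul, mul_comm 2 r]
    rw [h00]
    exact Real.sqrt_sq (pow_nonneg (Real.exp_pos _).le _)
  have h2 : 3 * Real.sqrt (Real.exp (-(δ / 8) * L) ^ r) ≤ Real.exp (-(δ / 32) * L) ^ r := by
    rw [h1]
    have h3 : Real.exp (-(δ / 16) * L) ^ r =
        Real.exp (-(δ / 32) * L) ^ r * Real.exp (-(δ / 32) * L) ^ r := by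
      rw [← mul_pow, ← Real.exp_add]
      congr 2
      ring
    rw [h3]
    have h4 : Real.exp (-(δ / 32) * L) ^ r ≤ 1 / 3 := by
      have h6 : Real.exp (-(δ / 32) * L) ^ r ≤ Real.exp (-(δ / 32) * L) ^ 1 := by
        refine pow_le_pow_of_le_one (Real.exp_pos _).le ?_ c.hr0
        rw [Real.exp_le_one_iff]
        nlinarith
      have h7 : Real.exp (-(δ / 32) * L) ≤ 1 / 3 := by
        rw [neg_mul, Real.exp_neg, one_div]
        apply inv_anti₀ (by norm_num)
        have := c.big.h1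
        linarith
      rw [pow_one] at h6
      linarith
    have h5 : 0 < Real.exp (-(δ / 32) * L) ^ r := pow_pos (Real.exp_pos _) _
    nlinarith
  have h3 : (3 * Real.sqrt (Real.exp (-(δ / 8) * L) ^ r)) ^ m ≤ Real.exp (-(4 * r * L)) := by
    refine (pow_le_pow_left₀ (by positivity) h2 m).trans ?_
    rw [← pow_mul, ← Real.exp_nat_mul]
    apply Real.exp_le_exp.2
    push_cast
    have h3 : 4 * (r * L) ≤ δ * m / 32 * (r * L) := by
      refine mul_le_mul_of_nonneg_right ?_ (by positivity)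
      linarith
    nlinarith
  have hn0 := c.hn0
  have h5 : (n : ℝ) ^ r = Real.exp (r * L) := by
    rw [Real.exp_nat_mul, c.hn]
  have h4 : ((n : ℝ) ^ 2)⁻¹ = Real.exp (-(2 * L)) := by
    rw [Real.exp_neg, ← c.hn, ← Real.exp_nat_mul]
    push_cast
    rfl
  rw [h5, h4]
  calc (3 * Real.sqrt (Real.exp (-(δ / 8) * L) ^ r)) ^ m * (2 * Real.exp (r * L)) ≤
      Real.exp (-(4 * r * L)) * (2 * Real.exp (r * L)) :=
        mul_le_mul_of_nonneg_right h3 (by positivity)
    _ = 2 * Real.exp (-(4 * r * L) + r * L) := by rw [Real.exp_add]; ring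
    _ ≤ 2 * Real.exp (-(2 * L)) := by
        refine mul_le_mul_of_nonneg_left (Real.exp_le_exp.2 ?_) (by norm_num)
        nlinarith

end Ctx

end Pool.Agent.Helper6.W
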