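import Pool.Agent.Helper6.W.Law
import Pool.Agent.Helper15.An.Step
import Pool.Agent.Helper6.FixK.Levels

/-! One bootstrapping stage: fresh elements `y` reduce the dimension of the near-invariant
space, fresh elements `x` kill it. -/

set_option linter.unusedSectionVars false

namespace Pool.Agent.Helper6.W

open Matrix Equiv Pool.Agent.Helper15.An Pool.Agent.Helper6.FixK
open scoped ComplexOrder

variable {n D : ℕ}

/-- product sets -/
theorem card_pi_le {Y : Type} [Fintype Y] (P : Y → Prop) (B : ℕ) (Q : (Fin B → Y) → Prop)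
    (h : ∀ y, Q y → ∀ b, P (y b)) (c : ℝ) (hc : (Nat.card {y : Y // P y} : ℝ) ≤ c) :
    (Nat.card {y : Fin B → Y // Q y} : ℝ) ≤ c ^ B := by
  classical
  have h1 : Nat.card {y : Fin B → Y // Q y} ≤ Nat.card (Fin B → {y : Y // P y}) := by
    refine Nat.card_le_card_of_injective (fun y b => ⟨y.1 b, h y.1 y.2 b⟩) ?_
    intro y z hyz
    apply Subtype.ext
    funext b
    have := congrFun hyz b
    exact congrArg Subtype.val this
  rw [Nat.card_fun, Nat.card_eq_fintype_card (α := Fin B), Fintype.card_fin] at h1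
  calc (Nat.card {y : Fin B → Y // Q y} : ℝ) ≤ ((Nat.card {y : Y // P y} ^ B : ℕ) : ℝ) := by
        exact_mod_cast h1
    _ = (Nat.card {y : Y // P y} : ℝ) ^ B := by push_cast; rfl
    _ ≤ c ^ B := pow_le_pow_left₀ (Nat.cast_nonneg _) hc B

/-- the operator of the mixture -/
theorem mix_isHermitian {ρ : Perm (Fin n) →* Matrix (Fin D) (Fin D) ℂ}
    (hu : ∀ g, (ρ g)ᴴ * ρ g = 1) {μ : Perm (Fin n) → ℝ}
    (hμ : IsSP (Alt n : Set (Perm (Fin n))) μ) {B : ℕ} (y : Fin B → Alt n) :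
    ((1 / 2 : ℝ) • (wop ρ μ + avgRe fun b => ρ (y b : Perm (Fin n)))).IsHermitian := by
  unfold Matrix.IsHermitian
  rw [conjTranspose_smul, conjTranspose_add, (wop_isHermitian ρ hu hμ).eq,
    (avgRe_isHermitian _).eq]
  simp

/-- few `y` leave a large near-invariant space -/
theorem dim_count {ρ : Perm (Fin n) →* Matrix (Fin D) (Fin D) ℂ} (hD : 0 < D)
    (hu : ∀ g, (ρ g)ᴴ * ρ g = 1) {μ : Perm (Fin n) → ℝ}
    (hμ : IsSP (Alt n : Set (Perm (Fin n))) μ) {B : ℕ} (hB : 0 < B) (η : ℝ) (h0 : 0 < η)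
    (h1 : η ≤ 1) (l q : ℕ) (β τ : ℝ) (hτ : 0 < τ)
    (hsum : ∑ y : Alt n, (trace (((((1 / 2 : ℝ) •
      ((1 : Matrix (Fin D) (Fin D) ℂ) + wop ρ μ)) ^ (2 * l)) *
        ((ρ (y : Perm (Fin n)))ᴴ * (((1 / 2 : ℝ) • ((1 : Matrix (Fin D) (Fin D) ℂ) +
          wop ρ μ)) ^ (2 * l)) * ρ (y : Perm (Fin n)))) ^ q)).re ≤
        Fintype.card (Alt n) * (D * β)) :
    (Nat.card {y : Fin B → Alt n // τ * D < Fintype.card (TopIdx (mix_isHermitian hu hμ y)
      (1 - η / (100 * B)))} : ℝ) ≤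
      (Fintype.card (Alt n) * (β / (τ * ((1 - η / 2) ^ (4 * l) / 4) ^ q))) ^ B := by
  classical
  set N := ((1 / 2 : ℝ) • ((1 : Matrix (Fin D) (Fin D) ℂ) + wop ρ μ)) ^ (2 * l) with hN
  set f : Alt n → ℝ := fun y => (trace ((N * ((ρ (y : Perm (Fin n)))ᴴ * N *
    ρ (y : Perm (Fin n)))) ^ q)).re with hf
  set c : ℝ := ((1 - η / 2) ^ (4 * l) / 4) ^ q with hc
  have hc0 : 0 < c := by
    have : (0 : ℝ) < 1 - η / 2 := by linarith
    positivity
  have hD' : (0 : ℝ) < D := by exact_mod_cast hD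
  have hT := wop_isHermitian ρ hu hμ
  have hT1 := one_sub_wop ρ hu hμ
  have hT2 := wop_add_one ρ hu hμ
  have hf0 : ∀ y, 0 ≤ f y := by
    intro y
    have h2 := dim_bound hT hT1 hT2 (B := 1) (by norm_num) (fun _ => ρ (y : Perm (Fin n)))
      (fun _ => hu _) η h0 h1 l q (mix_isHermitian hu hμ (fun _ : Fin 1 => y)) 0
    refine le_trans ?_ h2
    positivity
  refine card_pi_le (fun y => τ * D * c ≤ f y) B _ (fun y hy b => ?_) _ ?_
  · have h2 := dim_bound hT hT1 hT2 hB (fun b => ρ (y b : Perm (Fin n))) (fun _ => hu _) η h0 h1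
      l q (mix_isHermitian hu hμ y) b
    refine le_trans ?_ h2
    exact mul_le_mul_of_nonneg_right hy.le hc0.le
  · rw [Nat.card_eq_fintype_card, Fintype.card_subtype]
    have h2 : ((Finset.univ.filter fun y => τ * D * c ≤ f y).card : ℝ) * (τ * D * c) ≤
        ∑ y, f y := by
      rw [← nsmul_eq_mul]
      refine (Finset.card_nsmul_le_sum _ f _ fun y hy => (Finset.mem_filter.1 hy).2).trans
        (Finset.sum_le_sum_of_subset_of_nonneg (Finset.filter_subset _ _) fun y _ _ => hf0 y)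
    have h3 := h2.trans hsum
    have h4 : 0 < τ * D * c := by positivity
    rw [← le_div_iff₀ h4] at h3
    refine h3.trans (le_of_eq ?_)
    field_simp

/-- the top space of the mixture is small on the levels in `(p, p']` -/
def DimOK (F : PW (Perm (Fin n))) {μ : Perm (Fin n) → ℝ}
    (hμ : IsSP (Alt n : Set (Perm (Fin n))) μ) (p p' : ℕ) (η : ℝ) (τ : ℕ → ℝ) {B : ℕ}
    (y : Fin B → Alt n) : Prop :=
  ∀ i r, p < r → r ≤ p' → HasFix (F.ρ i) (stab n r) → ¬ HasFix (F.ρ i) (stab n (r - 1)) →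
    (Fintype.card (TopIdx (mix_isHermitian (F.irr i).unit hμ y) (1 - η)) : ℝ) ≤ τ r * F.D i

/-- union over the exact levels in `(p, p']` -/
theorem level_union (F : PW (Perm (Fin n))) {X : Type} [Fintype X] (p p' : ℕ) (hp : p' ≤ n)
    (bad : Fin F.c → ℕ → X → Prop) (Q : X → Prop)
    (hQ : ∀ x, Q x → ∃ i r, p < r ∧ r ≤ p' ∧ HasFix (F.ρ i) (stab n r) ∧
      ¬ HasFix (F.ρ i) (stab n (r - 1)) ∧ bad i r x)
    (N : ℝ) (hN : 0 ≤ N) (ε : ℕ → ℝ) (hε : ∀ r, p < r → r ≤ p' → 0 ≤ ε r)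
    (h : ∀ i r, p < r → r ≤ p' → HasFix (F.ρ i) (stab n r) →
      ¬ HasFix (F.ρ i) (stab n (r - 1)) → (Nat.card {x : X // bad i r x} : ℝ) ≤
        N * ε r * F.D i) :
    (Nat.card {x : X // Q x} : ℝ) ≤ N * ∑ r ∈ Finset.Ioc p p', ε r * (2 * (n : ℝ) ^ r) := by
  classical
  set S : ℕ → Finset (Fin F.c) := fun r => Finset.univ.filter fun i =>
    HasFix (F.ρ i) (stab n r) ∧ ¬ HasFix (F.ρ i) (stab n (r - 1)) with hS
  rw [Nat.card_eq_fintype_card, Fintype.card_subtype]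
  have h1 : (Finset.univ.filter fun x : X => Q x) ⊆
      (Finset.Ioc p p').biUnion fun r => (S r).biUnion fun i =>
        Finset.univ.filter fun x : X => bad i r x := by
    intro x hx
    obtain ⟨i, r, hr0, hrp, hr1, hr2, hb⟩ := hQ x (Finset.mem_filter.1 hx).2
    rw [Finset.mem_biUnion]
    refine ⟨r, Finset.mem_Ioc.2 ⟨hr0, hrp⟩, ?_⟩
    rw [Finset.mem_biUnion]
    exact ⟨i, Finset.mem_filter.2 ⟨Finset.mem_univ _, hr1, hr2⟩,
      Finset.mem_filter.2 ⟨Finset.mem_univ _, hb⟩⟩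
  have h2 := (Finset.card_le_card h1).trans Finset.card_biUnion_le
  refine (Nat.cast_le.2 h2).trans ?_
  push_cast
  rw [Finset.mul_sum]
  refine Finset.sum_le_sum fun r hr => ?_
  have hr' := Finset.mem_Ioc.1 hr
  have h3 : (((S r).biUnion fun i => Finset.univ.filter fun x : X => bad i r x).card : ℝ) ≤
      ∑ i ∈ S r, ((Finset.univ.filter fun x : X => bad i r x).card : ℝ) := by
    exact_mod_cast Finset.card_biUnion_le
  refine h3.trans ?_
  have h4 : ∀ i ∈ S r, ((Finset.univ.filter fun x : X => bad i r x).card : ℝ) ≤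
      N * ε r * F.D i := by
    intro i hi
    have hi' := (Finset.mem_filter.1 hi).2
    have h5 := h i r hr'.1 hr'.2 hi'.1 hi'.2
    rw [Nat.card_eq_fintype_card, Fintype.card_subtype] at h5
    exact h5
  refine (Finset.sum_le_sum h4).trans ?_
  rw [← Finset.mul_sum, mul_assoc]
  refine mul_le_mul_of_nonneg_left ?_ hN
  refine mul_le_mul_of_nonneg_left ?_ (hε r hr'.1 hr'.2)
  refine (sum_dim_hasFix_le F (stab n r) (S r) fun i hi => (Finset.mem_filter.1 hi).2.1).trans ?_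
  exact index_stab_le r (by omega)

/-- `y`-phase -/
theorem dimOK_count (F : PW (Perm (Fin n))) {μ : Perm (Fin n) → ℝ}
    (hμ : IsSP (Alt n : Set (Perm (Fin n))) μ) (p p' : ℕ) (hp : p' ≤ n) {B : ℕ} (hB : 0 < B)
    (η : ℝ) (h0 : 0 < η) (h1 : η ≤ 1) (l : ℕ) (q : ℕ → ℕ) (β τ : ℕ → ℝ)
    (hτ : ∀ r, p < r → r ≤ p' → 0 < τ r) (hβ : ∀ r, p < r → r ≤ p' → 0 ≤ β r)
    (hsum : ∀ i r, p < r → r ≤ p' → HasFix (F.ρ i) (stab n r) →
      ¬ HasFix (F.ρ i) (stab n (r - 1)) →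
      ∑ y : Alt n, (trace (((((1 / 2 : ℝ) •
        ((1 : Matrix (Fin (F.D i)) (Fin (F.D i)) ℂ) + wop (F.ρ i) μ)) ^ (2 * l)) *
        ((F.ρ i (y : Perm (Fin n)))ᴴ * (((1 / 2 : ℝ) •
          ((1 : Matrix (Fin (F.D i)) (Fin (F.D i)) ℂ) + wop (F.ρ i) μ)) ^ (2 * l)) *
            F.ρ i (y : Perm (Fin n)))) ^ q r)).re ≤ Fintype.card (Alt n) * (F.D i * β r)) :
    (Nat.card {y : Fin B → Alt n // ¬ DimOK F hμ p p' (η / (100 * B)) τ y} : ℝ) ≤
      (Fintype.card (Alt n) : ℝ) ^ B * ∑ r ∈ Finset.Ioc p p',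
        (β r / (τ r * ((1 - η / 2) ^ (4 * l) / 4) ^ q r)) ^ B * (2 * (n : ℝ) ^ r) := by
  classical
  have hη2 : (0 : ℝ) < 1 - η / 2 := by linarith
  refine level_union F p p' hp (fun i r (y : Fin B → Alt n) => τ r * F.D i <
    Fintype.card (TopIdx (mix_isHermitian (F.irr i).unit hμ y) (1 - η / (100 * B)))) _
    (fun y hy => ?_) _ (by positivity) _ (fun r hr1 hr2 => ?_) (fun i r hr1 hr2 hf hnf => ?_)
  · unfold DimOK at hy
    push Not at hy
    obtain ⟨i, r, h2, h3, h4, h5, h6⟩ := hy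
    exact ⟨i, r, h2, h3, h4, h5, h6⟩
  · have := hτ r hr1 hr2
    have := hβ r hr1 hr2
    positivity
  · have h2 := dim_count (F.irr i).pos (F.irr i).unit hμ hB η h0 h1 l (q r) (β r) (τ r)
      (hτ r hr1 hr2) (hsum i r hr1 hr2 hf hnf)
    refine h2.trans ?_
    rw [mul_pow]
    have hD : (1 : ℝ) ≤ F.D i := by
      have := (F.irr i).pos
      exact_mod_cast this
    have h3 : 0 ≤ (Fintype.card (Alt n) : ℝ) ^ B *
        (β r / (τ r * ((1 - η / 2) ^ (4 * l) / 4) ^ q r)) ^ B := by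
      have := hτ r hr1 hr2
      have := hβ r hr1 hr2
      positivity
    nlinarith

/-- `x`-phase -/
theorem kill_count (F : PW (Perm (Fin n))) (hn : 2 ≤ n) {μ : Perm (Fin n) → ℝ}
    (hμ : IsSP (Alt n : Set (Perm (Fin n))) μ) (p p' : ℕ) (hp : p' ≤ n) {B : ℕ} (hB : 0 < B)
    (η ε : ℝ) (h0 : 0 < η) (h1 : η ≤ 1 / 8) (_hε0 : 0 ≤ ε) (hgood : Good F μ p ε)
    (τ : ℕ → ℝ) (hτ : ∀ r, p < r → r ≤ p' → 0 < τ r) (hτ1 : ∀ r, p < r → r ≤ p' → τ r ≤ 1)
    (y : Fin B → Alt n) (hy : DimOK F hμ p p' η τ y) {m : ℕ} (hm : 0 < m) :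
    (Nat.card {x : Fin m → Alt n // ¬ Good F (mixW (mixW μ (tupW y)) (tupW x)) p'
      (min (ε / 4) (η / 100))} : ℝ) ≤
      (Fintype.card (Alt n) : ℝ) ^ m * ∑ r ∈ Finset.Ioc p p',
        (3 * Real.sqrt (τ r)) ^ m * (2 * (n : ℝ) ^ r) := by
  classical
  have hμy := mixW_isSP hμ (tupW_isSP hB y)
  refine level_union F p p' hp (fun i _ (x : Fin m → Alt n) =>
    ¬ ((1 - η / 100) • (1 : Matrix (Fin (F.D i)) (Fin (F.D i)) ℂ) -
        (1 / 2 : ℝ) • ((1 / 2 : ℝ) • (wop (F.ρ i) μ +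
          avgRe fun b => F.ρ i (y b : Perm (Fin n))) +
          avgRe fun l => F.ρ i (x l : Perm (Fin n)))).PosSemidef) _
    (fun x hx => ?_) _ (by positivity) _ (fun r hr1 hr2 => by positivity)
    (fun i r hr1 hr2 hf hnf => ?_)
  · unfold Good at hx
    push Not at hx
    obtain ⟨i, hnt, hf, hbad⟩ := hx
    obtain ⟨r, hr0, hrp, hr1, hr2⟩ := exists_level (F.irr i) hnt hf
    have hu := (F.irr i).unit
    have hwop : wop (F.ρ i) (mixW (mixW μ (tupW y)) (tupW x)) =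
        (1 / 2 : ℝ) • ((1 / 2 : ℝ) • (wop (F.ρ i) μ +
          avgRe fun b => F.ρ i (y b : Perm (Fin n))) +
          avgRe fun l => F.ρ i (x l : Perm (Fin n))) := by
      rw [wop_mixW, wop_mixW, wop_tupW (F.ρ i) hu, wop_tupW (F.ρ i) hu]
    rw [hwop] at hbad
    by_cases hrp2 : r ≤ p
    · exfalso
      apply hbad
      have h2 := hgood i hnt (hr1.mono hrp2)
      have h3 : ((1 : ℝ) • (1 : Matrix (Fin (F.D i)) (Fin (F.D i)) ℂ) -
          avgRe fun b => F.ρ i (y b : Perm (Fin n))).PosSemidef := by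
        have := one_sub_wop (F.ρ i) hu (tupW_isSP hB y)
        rwa [wop_tupW (F.ρ i) hu] at this
      have h4 : ((1 : ℝ) • (1 : Matrix (Fin (F.D i)) (Fin (F.D i)) ℂ) -
          avgRe fun l => F.ρ i (x l : Perm (Fin n))).PosSemidef := by
        have := one_sub_wop (F.ρ i) hu (tupW_isSP hm x)
        rwa [wop_tupW (F.ρ i) hu] at this
      have h5 : ((ε / 4 - min (ε / 4) (η / 100)) •
          (1 : Matrix (Fin (F.D i)) (Fin (F.D i)) ℂ)).PosSemidef := by
        refine Matrix.PosSemidef.one.smul ?_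
        have := min_le_left (ε / 4) (η / 100)
        linarith
      have h6 := (((h2.smul (show (0 : ℝ) ≤ 1 / 4 by norm_num)).add
        (h3.smul (show (0 : ℝ) ≤ 1 / 4 by norm_num))).add
        (h4.smul (show (0 : ℝ) ≤ 1 / 2 by norm_num))).add h5
      convert h6 using 1
      module
    · refine ⟨i, r, by omega, hrp, hr1, hr2, fun hcon => hbad ?_⟩
      have h5 : ((η / 100 - min (ε / 4) (η / 100)) •
          (1 : Matrix (Fin (F.D i)) (Fin (F.D i)) ℂ)).PosSemidef := by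
        refine Matrix.PosSemidef.one.smul ?_
        have := min_le_right (ε / 4) (η / 100)
        linarith
      have h6 := hcon.add h5
      convert h6 using 1
      module
  · have hu := (F.irr i).unit
    have h2 := hy i r hr1 hr2 hf hnf
    have hT1 : ((1 : ℝ) • (1 : Matrix (Fin (F.D i)) (Fin (F.D i)) ℂ) -
        (1 / 2 : ℝ) • (wop (F.ρ i) μ +
          avgRe fun b => F.ρ i (y b : Perm (Fin n)))).PosSemidef := by
      have := one_sub_wop (F.ρ i) hu hμy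
      rwa [wop_mixW, wop_tupW (F.ρ i) hu] at this
    have h3 := stage (Ω := Alt n) (fun ω => F.ρ i (ω : Perm (Fin n)))
        (fun ω => (F.irr i).unit _) (by rw [Fintype.card_fin]; exact (F.irr i).pos)
        (fun M hM => design (F.irr i) (Alt n) (card_Alt hn) M hM)
        (mix_isHermitian hu hμ y) hT1
        η h0 h1 (τ r) (hτ r hr1 hr2) (hτ1 r hr1 hr2)
        (by rw [Fintype.card_fin]; exact h2) m hm
    rw [Fintype.card_fin] at h3
    exact h3

end Pool.Agent.Helper6.W
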