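import Pool.Agent.Helper6.W.Append
import Pool.Agent.Helper6.W.Num

/-! One bootstrapping stage. -/

set_option linter.unusedSectionVars false

namespace Pool.Agent.Helper6.W

open Matrix Equiv Filter Topology Pool.Agent.Helper15.An Pool.Agent.Helper6.FixK
open scoped ComplexOrder

/-- number of steps of the alternating word -/
def qq (p r : ℕ) : ℕ := (r + p - 1) / p

theorem qq_spec {p r : ℕ} (hp : 0 < p) (hr : p < r) :
    r ≤ qq p r * p ∧ qq p r * p ≤ 2 * r ∧ qq p r ≤ r := by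
  unfold qq
  set q := (r + p - 1) / p with hq
  have h1 : q * p ≤ r + p - 1 := Nat.div_mul_le_self _ _
  have h2 : r + p - 1 < q * p + p := by
    have := Nat.lt_div_mul_add (a := r + p - 1) hp
    exact this
  refine ⟨by omega, by omega, ?_⟩
  by_contra hcon
  push Not at hcon
  have h3 : (r + 1) * p ≤ q * p := Nat.mul_le_mul_right p hcon
  have h4 : r * 1 ≤ r * p := Nat.mul_le_mul_left r hp
  have h5 : (r + 1) * p = r * p + p := by ring
  omega

/-- level -/
noncomputable def lv (n : ℕ) (α : ℝ) : ℕ := ⌊Real.exp (α * Real.log n)⌋₊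

theorem lv_le (n : ℕ) (α : ℝ) : (lv n α : ℝ) ≤ Real.exp (α * Real.log n) :=
  Nat.floor_le (Real.exp_pos _).le

theorem le_lv {n : ℕ} {α : ℝ} (h : 2 ≤ Real.exp (α * Real.log n)) :
    Real.exp (α * Real.log n) ≤ 2 * lv n α := by
  have h1 : Real.exp (α * Real.log n) < lv n α + 1 := Nat.lt_floor_add_one _
  linarith

theorem mk_ctx {α α' δ : ℝ} (ex : Exps α α' δ) {n : ℕ} (hn : 0 < n)
    (big : BigW α δ (Real.log n)) {r : ℕ} (h1 : lv n α < r) (h2 : r ≤ lv n α') :
    Ctx α α' δ (Real.log n) n (lv n α) (lv n (1 - δ)) r (qq (lv n α) r) := by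
  have hL0 : 0 < Real.log n := lt_of_lt_of_le one_pos big.hL
  have hδ := ex.hδ
  have e2 : 2 ≤ Real.exp (α * Real.log n) := by
    have := big.h2
    have : 0 < 256 / δ := by positivity
    linarith
  have e3 : 2 ≤ Real.exp ((1 - δ) * Real.log n) := by
    refine e2.trans (Real.exp_le_exp.2 (mul_le_mul_of_nonneg_right ?_ hL0.le))
    have := ex.c3
    have := ex.hαα'
    linarith
  have hp0 : 0 < lv n α := by
    have h3 := le_lv e2
    have h4 : (0 : ℝ) < lv n α := by linarith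
    exact_mod_cast h4
  obtain ⟨q1, q2, q3⟩ := qq_spec hp0 h1
  exact
    { ex := ex
      big := big
      hn := Real.exp_log (by exact_mod_cast hn)
      hp := lv_le n α
      hp2 := le_lv e2
      hF := lv_le n (1 - δ)
      hF2 := le_lv e3
      hpr := h1
      hr := le_trans (by exact_mod_cast h2) (lv_le n α')
      hq1 := q1
      hq2 := q2
      hq3 := q3 }

/-- bound of the average trace -/
noncomputable def bet (δ : ℝ) (n r : ℕ) : ℝ :=
  2 * (Real.exp (-(1 / 2) * Real.log n) ^ r + Real.exp (-(1 / 2) * Real.log n) ^ r) +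
      Real.exp (-(δ / 2) * Real.log n) ^ r

theorem bet_nonneg (δ : ℝ) (n r : ℕ) : 0 ≤ bet δ n r := by
  unfold bet
  positivity

/-- the average of the traces on the level `r` -/
theorem trace_level {α α' δ ε : ℝ} (hε : 0 < ε) (hε1 : ε ≤ 1) {n p Fn r q : ℕ}
    (c : Ctx α α' δ (Real.log n) n p Fn r q) (F : PW (Perm (Fin n)))
    {μ : Perm (Fin n) → ℝ} (hμ : IsSP (Alt n : Set (Perm (Fin n))) μ) (hgood : Good F μ p ε)
    (i : Fin F.c) (hf : HasFix (F.ρ i) (stab n r)) (hnf : ¬ HasFix (F.ρ i) (stab n (r - 1))) :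
    ∑ y : Alt n, (trace (((((1 / 2 : ℝ) •
        ((1 : Matrix (Fin (F.D i)) (Fin (F.D i)) ℂ) + wop (F.ρ i) μ)) ^
          (2 * ⌈p * Real.log n / ε⌉₊)) *
        ((F.ρ i (y : Perm (Fin n)))ᴴ * (((1 / 2 : ℝ) •
          ((1 : Matrix (Fin (F.D i)) (Fin (F.D i)) ℂ) + wop (F.ρ i) μ)) ^
            (2 * ⌈p * Real.log n / ε⌉₊)) *
            F.ρ i (y : Perm (Fin n)))) ^ q)).re ≤
      Fintype.card (Alt n) * (F.D i * bet δ n r) := by
  have h7 := c.cond7
  have hr0 := c.hr0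
  have hpr := c.hpr
  have hp2 : p + 2 ≤ n := by omega
  have hn2 : 2 ≤ n := by omega
  have hl : (1 - ε / 2) ^ (2 * ⌈p * Real.log n / ε⌉₊) ≤ 1 / (n.descFactorial p : ℝ) := by
    rcases Ctx.bound6 (p := p) c.hn c.hL0 hε hε1 with h | h
    · exact h
    · exfalso
      rw [Nat.descFactorial_eq_zero_iff_lt] at h
      omega
  obtain ⟨κ, hκ, hκ2⟩ := exists_wise F hμ p hp2 ε hε1 hgood _ hl
  rw [hκ2 (F.D i) (F.ρ i)]
  have hS := star hκ c.cond1 c.cond2 c.cond3 c.cond4 c.cond5 c.cond6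
  have hS2 : ∑ y : Perm (Fin n), ∑ Z : Fin (2 * q) → Perm (Fin n), (∏ t, κ (Z t)) *
        (if Fn ≤ fixc (pos y (ext Z) (2 * q)) then (1 : ℝ) else 0) ≤
      (n.factorial : ℝ) * (Real.exp (-(1 / 2) * Real.log n) ^ r +
        Real.exp (-(1 / 2) * Real.log n) ^ r) := by
    refine hS.trans (mul_le_mul_of_nonneg_left ?_ (Nat.cast_nonneg _))
    exact add_le_add c.bound1 c.bound2
  exact sum_trace_le hn2 (F.ρ i) (F.irr i).unit hκ.nonneg hκ.sum q Fn
    (Real.exp (-(δ / 2) * Real.log n) ^ r) (by positivity) (fun g hg => by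
      refine (char_bound_level c.hr0 h7 (F.irr i) hf hnf g).trans ?_
      refine mul_le_mul_of_nonneg_left ?_ (Nat.cast_nonneg _)
      refine pow_le_pow_left₀ (by positivity) ?_ r
      refine le_trans ?_ c.bound3
      have hn0 := c.hn0
      have h2 : (fixc g : ℝ) ≤ Fn := by exact_mod_cast hg.le
      gcongr) _ hS2

theorem sum_Ioc_le {n p p' : ℕ} (hn : 0 < n) (hp : p' ≤ n) (f : ℕ → ℝ)
    (h : ∀ r, p < r → r ≤ p' → f r ≤ 2 * ((n : ℝ) ^ 2)⁻¹) :
    ∑ r ∈ Finset.Ioc p p', f r ≤ 2 / n := by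
  have hn0 : (0 : ℝ) < n := by exact_mod_cast hn
  refine (Finset.sum_le_sum fun r hr => h r (Finset.mem_Ioc.1 hr).1
    (Finset.mem_Ioc.1 hr).2).trans ?_
  rw [Finset.sum_const, Nat.card_Ioc, nsmul_eq_mul]
  calc ((p' - p : ℕ) : ℝ) * (2 * ((n : ℝ) ^ 2)⁻¹) ≤ n * (2 * ((n : ℝ) ^ 2)⁻¹) := by
        have : ((p' - p : ℕ) : ℝ) ≤ n := by
          have : p' - p ≤ n := by omega
          exact_mod_cast this
        gcongr
    _ = 2 / n := by field_simp

/-- one stage -/
theorem stage_step {α α' δ ε : ℝ} (ex : Exps α α' δ) (hε : 0 < ε) (hε1 : ε ≤ 1)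
    {k B m : ℕ} (hk : 0 < k) (hB0 : 0 < B) (hm0 : 0 < m) (hB : 32 ≤ δ * B)
    (hm : 128 ≤ δ * m) {n : ℕ} (hn : 2 ≤ n) (big : BigW α δ (Real.log n))
    (F : PW (Perm (Fin n))) (a : ℝ)
    (ha : (Nat.card {z : Fin k → Alt n // ¬ Good F (tupW z) (lv n α) ε} : ℝ) ≤
      (Fintype.card (Alt n) : ℝ) ^ k * a) :
    (Nat.card {w : Fin (k + B + m) → Alt n // ¬ Good F (tupW w) (lv n α')
      (min (ε / 4) (ε * δ / 256 / (100 * B) / 100) / ((k + B + m : ℕ) : ℝ))} : ℝ) ≤
      (Fintype.card (Alt n) : ℝ) ^ (k + B + m) * (a + 2 / n + 2 / n) := by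
  have hn0 : 0 < n := by omega
  have hnR : (0 : ℝ) < n := by exact_mod_cast hn0
  have hL0 : 0 < Real.log n := lt_of_lt_of_le one_pos big.hL
  have hδ := ex.hδ
  have hδ1 : δ ≤ 1 := by
    have := ex.c2
    have := ex.hαα'
    linarith
  have hp'n : lv n α' ≤ n := by
    have h1 : (lv n α' : ℝ) ≤ n := by
      refine (lv_le n α').trans ?_
      calc Real.exp (α' * Real.log n) ≤ Real.exp (1 * Real.log n) := by
            apply Real.exp_le_exp.2
            refine mul_le_mul_of_nonneg_right ?_ hL0.le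
            have := ex.c3
            linarith
        _ = n := by rw [one_mul, Real.exp_log hnR]
    exact_mod_cast h1
  have hctx : ∀ r, lv n α < r → r ≤ lv n α' →
      Ctx α α' δ (Real.log n) n (lv n α) (lv n (1 - δ)) r (qq (lv n α) r) :=
    fun r h1 h2 => mk_ctx ex hn0 big h1 h2
  set η : ℝ := ε * δ / 256 with hη
  have hη0 : 0 < η := by positivity
  have hη1 : η ≤ 1 := by
    rw [hη]
    have : ε * δ ≤ 1 := by nlinarith
    linarith
  have hB1 : (1 : ℝ) ≤ B := by exact_mod_cast hB0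
  set τ : ℕ → ℝ := fun r => Real.exp (-(δ / 8) * Real.log n) ^ r with hτ
  have hτ0 : ∀ r, 0 < τ r := fun r => pow_pos (Real.exp_pos _) _
  have hτ1 : ∀ r, τ r ≤ 1 := fun r => by
    refine pow_le_one₀ (Real.exp_pos _).le ?_
    rw [Real.exp_le_one_iff]
    nlinarith
  refine append_count F hk hB0 hm0 (lv n α) (lv n α') ε
    (min (ε / 4) (η / (100 * B) / 100)) (η / (100 * B)) τ a (2 / n) (2 / n)
    (by positivity) (by positivity) ha (fun z hz => ?_) (fun z y hz hy => ?_)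
  · refine (dimOK_count F (tupW_isSP hk z) (lv n α) (lv n α') hp'n hB0 η hη0 hη1
      ⌈(lv n α : ℝ) * Real.log n / ε⌉₊ (qq (lv n α)) (bet δ n) τ (fun r _ _ => hτ0 r)
      (fun r _ _ => bet_nonneg δ n r) (fun i r h1 h2 hf hnf => ?_)).trans ?_
    · exact trace_level hε hε1 (hctx r h1 h2) F (tupW_isSP hk z) hz i hf hnf
    · refine mul_le_mul_of_nonneg_left ?_ (by positivity)
      refine sum_Ioc_le hn0 hp'n _ fun r h1 h2 => ?_
      exact (hctx r h1 h2).bound7 hε hε1 hB (bet_nonneg δ n r) (hctx r h1 h2).bound4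
  · have hη8 : η / (100 * B) ≤ 1 / 8 := by
      rw [div_le_iff₀ (by positivity)]
      linarith
    refine (kill_count F hn (tupW_isSP hk z) (lv n α) (lv n α') hp'n hB0 (η / (100 * B)) ε
      (by positivity) hη8 hε.le hz τ (fun r _ _ => hτ0 r) (fun r _ _ => hτ1 r) y hy hm0).trans ?_
    refine mul_le_mul_of_nonneg_left ?_ (by positivity)
    refine sum_Ioc_le hn0 hp'n _ fun r h1 h2 => ?_
    exact (hctx r h1 h2).bound8 hm

end Pool.Agent.Helper6.W
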